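import Pool.Agent.W5h58.MW.Main

/-!
# Characters which do not occur in the primitive cohomology
-/

namespace Pool.Agent.W5h58.MW

universe u v

open Module Pool.Agent.Y143 Pool.Agent.X302.MW

variable {Ω : Type u} [Field Ω] [CharZero Ω] {Γ : Type} {n q : ℕ}

lemma noPrim_of_source (X : SpecialFibre.{u, v} Ω Γ n q) (a w : ℕ) (χ : Γ → Ω)
    (h : ∀ x ∈ primOf X a w, x ∈ Wt (X.act a) χ → x = 0) : HasNoPrimitiveRestriction X a w χ := by
  intro x hx hxW
  refine ⟨0, Submodule.zero_mem _, ?_⟩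
  rw [h x hx hxW, map_zero, map_zero]

variable [IsAlgClosed Ω] (X : Degeneration.{u, v} Ω Γ n q)

/-- Decomposition of a class of given character into a primitive class and a multiple of `L`. -/
lemma decomp' (a m : ℕ) (w : ℤ) (hw : (n : ℤ) - m - a = w) {μ : Γ → Ω}
    {y : X.H a} (hy : y ∈ X.gr a w) (hyW : y ∈ Wt (X.act a) μ) :
    ∃ y0 ∈ X.gr a w, y0 ∈ Wt (X.act a) μ ∧
      (X.lef a ^ (m + 1)) y0 = 0 ∧ ∃ y1 ∈ X.gr a (w - 2), y = y0 + X.lef a y1 := by
  classical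
  obtain ⟨χ, hχ⟩ := exists_chr X μ a (-(m : ℤ))
  have h1 : (Pi.single a y : X.C) ∈ X.cls χ 0 a (-(m : ℤ)) := by
    apply single_cls X a
    · rwa [show (n : ℤ) + -(m : ℤ) - a = w by rw [← hw]; ring]
    · rwa [hχ]
  obtain ⟨x0, hx0, x1, hx1, hx⟩ := (X.cls_lefComplex χ 0).prim_decomp a m h1
  have h2 := congrFun hx a
  rw [Pi.single_eq_same, Pi.add_apply, X.lefC_apply] at h2
  refine ⟨x0 a, ?_, ?_, ?_, x1 a, ?_, h2⟩
  · have := (hx0.1.1 a).1
    rwa [show (n : ℤ) + -(m : ℤ) - a + a - a = w by rw [← hw]; ring] at this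
  · rw [← hχ]
    exact wt_comp X hx0.1.2
  · have h3 : (X.lefC ^ (m + 1)) x0 = 0 := hx0.2
    have h4 := congrFun h3 a
    rw [X.lefC_pow_apply] at h4
    exact h4
  · have := (hx1.1 a).1
    rwa [show (n : ℤ) + (-(m : ℤ) - 2) - a + a - a = w - 2 by
      rw [← hw]; ring] at this

/-- If the character `χ` does not occur in `P^w(Y^(a+2))`, then the primitive classes of character `χ`
in `H^w(Y^(a+1))` have no primitive restriction. -/
lemma noPrim_of_target (a w : ℕ) (hn : a + 1 + w ≤ n) (χ : Γ → Ω)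
    (h : ∀ x ∈ primOf X.toSpecialFibre (a + 1) w, x ∈ Wt (X.act (a + 1)) χ → x = 0) :
    HasNoPrimitiveRestriction X.toSpecialFibre a w χ := by
  intro x hx hxW
  obtain ⟨y0, hy0, hy0W, hy0L, y1, hy1, h1⟩ := decomp' X (a + 1) (n - (a + 1) - w) w
    (by omega) (X.res_gr a w x hx.1) (res_wt X a hxW)
  rw [h y0 ⟨hy0, hy0L⟩ hy0W, zero_add] at h1
  exact ⟨y1, hy1, h1⟩

end Pool.Agent.W5h58.MW
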