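import Pool.Agent.W5h58.MW.Mid

/-!
# Degenerations whose strata of even multiplicity are composed of almost all members
-/

open Polynomial

universe w x

namespace Pool.Agent.W5h58.MW

open Pool.Agent.H914 Pool.Agent.W534 Pool.Agent.W521.Frob Pool.Agent.W458.MF Pool.Agent.Y143
  Pool.Agent.X302.MW Module

lemma extra_cases {F : WeilFamily} {p g l₀ : ℕ} {D : ℤ[X]} {π : ∀ m l : ℕ, Set (ZMod l)[X] → ℝ}
    (h : F.HasLaw p g l₀ D π) : F.extra = 0 ∨ F.extra = 1 ∨ F.extra = 2 := by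
  rcases h.law with ⟨h0, -⟩ | ⟨h0, -⟩ | ⟨h0, -, -⟩
  · exact Or.inl h0
  · exact Or.inl h0
  · exact Or.inr h0

theorem final_mw (p : ℕ) (hp : p.Prime) {I : Type} [Fintype I] (F : I → WeilFamily) (b : I → ℕ)
    (hF : ∀ i, (F i).HasLargeMonodromy p) (ε : ℝ) (hε : 0 < ε) :
    ∃ m₀ : ℕ, ∀ m ≥ m₀, ({s : ∀ i, (F i).S m |
        ¬ MonodromyWeightFor.{w, x} (fun i => (F i).frobPoly p m (s i)) b
          (fun i => (F i).extra) (p ^ m)}.ncard : ℝ) ≤
      ε * ∏ i, (Nat.card ((F i).S m) : ℝ) := by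
  classical
  choose g l₀ D π hF using hF
  obtain ⟨m₀, h⟩ := weil_setup W216.MF.sieve
    (W806.MF.dens W337.MF.orb W366.MF.winj W205.MF.cnt) st_odens st_edens W976.MF.SPL
    W216.MF.uni st_nt2 hp F g l₀ D π hF ε hε
  refine ⟨m₀, fun m hm => le_trans ?_ (h m hm)⟩
  refine Nat.cast_le.2 (Set.ncard_le_ncard ?_ (Set.toFinite _))
  intro s hs H
  apply hs
  intro Ω _ _ _ Γ nn X A hI hX hE j
  exact mw_of_setup H (nn := fun i => (F i).half) (δ := fun i => (F i).sign)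
    (fun i => extra_cases (hF i)) X A hI hX hE j

end Pool.Agent.W5h58.MW
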