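import Pool.Agent.X302.MW.Core

/-!
# The induction on pairs of Lefschetz complexes in duality, with inductive hypotheses
-/

namespace Pool.Agent.W5h58.MW

open Module Submodule Pool.Agent.Y143 Pool.Agent.X302.MW

variable {Ω : Type*} [Field Ω] {C : Type*} [AddCommGroup C] [Module Ω C] [FiniteDimensional Ω C]
variable {ψ : C →ₗ[Ω] C →ₗ[Ω] Ω} {d : ℤ → Module.End Ω C} {L : Module.End Ω C}
  {G G' : ℤ → ℤ → Submodule Ω C}

/-- The condition in bidegree `(-i, -m)`: either the injectivity of `N ^ i` follows from the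
injectivity of `N ^ (i + 2)` in degree `-m` and of `N ^ i` in the degrees `-m - 2` and `m + 2`, or the
primitive part is disjoint from the coboundaries. -/
def CritJ (d : ℤ → Module.End Ω C) (L : Module.End Ω C) (G : ℤ → ℤ → Submodule Ω C) (i : ℤ)
    (m : ℕ) : Prop :=
  (NInj d G (i + 2) (-m) → NInj d G i (-m - 2) → NInj d G i ((m : ℤ) + 2) → NInj d G i (-m)) ∨
    Disjoint (Pr L G i m) (Bd d G i (-m))

/-- The condition on the pair. -/
def CritQ (d : ℤ → Module.End Ω C) (L : Module.End Ω C) (G G' : ℤ → ℤ → Submodule Ω C) (i : ℤ)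
    (m : ℕ) : Prop := (CritJ d L G i m ∧ CritJ d L G' i m) ∨ CritS d L G i m ∨ CritS d L G' i m

omit [FiniteDimensional Ω C] in
lemma nInj_of_zp_le (h : LefComplex d L G) (i : ℤ) (hi : 1 ≤ i) (m : ℕ)
    (hI : NInj d G i ((m : ℤ) + 2)) (hZ : Zp d L G i m ≤ Bd d G (-i) (-m)) :
    NInj d G i (-m) := by
  intro x hx
  obtain ⟨z, hz, hz'⟩ := h.lred' i hi m hI hx
  have h1 := Submodule.add_mem _ (hZ hz') hz
  rwa [sub_add_cancel] at h1

lemma core3 (h : LefDual ψ d L G G') (hG : LefComplex d L G) (hG' : LefComplex d L G')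
    (i : ℤ) (hi : 1 ≤ i) (m : ℕ) (hI : NInj d G i ((m : ℤ) + 2))
    (hI' : NInj d G' i ((m : ℤ) + 2))
    (hK : NInj d G (i + 2) (-m)) (hK' : NInj d G' (i + 2) (-m))
    (hJ : NInj d G i (-m - 2)) (hJ' : NInj d G' i (-m - 2))
    (hr : rk d G (i - 1) (-m - 1) = rk d G' (i - 1) (-m - 1))
    (hr2 : rk d G i (-m - 2) = rk d G' i (-m - 2))
    (hT : CritQ d L G G' i m) : Good2 d G G' i (-m) := by
  have key : ∀ {H : ℤ → ℤ → Submodule Ω C}, LefComplex d L H → NInj d H i ((m : ℤ) + 2) →
      NInj d H (i + 2) (-m) → NInj d H i (-m - 2) → CritJ d L H i m → NInj d H i (-m) := by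
    intro H hH hHI hHK hHJ hc
    rcases hc with hc | hc
    · exact hc hHK hHJ hHI
    · exact hH.nInj_of_Zp i hi m hHI (zp_eq_bot_of_disjoint hH i hi m hc)
  rcases hT with ⟨h1, h2⟩ | h1 | h1
  · exact h.good_of_inj hG hG' i hi _ (key hG hI hK hJ h1) (key hG' hI' hK' hJ' h2)
  · exact core' h hG hG' i hi m hI' hr hr2 h1
  · exact (core' h.flip hG' hG i hi m hI hr.symm hr2.symm h1).flip

lemma step3 (h : LefDual ψ d L G G') (hG : LefComplex d L G) (hG' : LefComplex d L G') (M : ℕ)
    (hT : ∀ i : ℤ, 1 ≤ i → ∀ m : ℕ, M ≤ m → CritQ d L G G' i m)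
    (i j : ℤ) (hj : j ≤ -M)
    (ih : ∀ i' j' : ℤ, j' ≤ -M → j' - i' < j - i → LefDual.Diag d G G' i' j')
    (ih2 : LefDual.Diag d G G' (i - 1) (j - 1)) : LefDual.Diag d G G' i j := by
  have k1 := h.kk_eq hG' i j
  have k2 := hh_eq d G i j
  have k3 := hh_eq d G' i j
  have k4 := ih2.rk
  rcases lt_trichotomy i 0 with hi | hi | hi
  · -- negative column
    have a1 := ih (-i) j hj (by omega)
    have a2 := ih (-i - 1) (j - 1) (by omega) (by omega)
    have b1 := h.kk_eq hG' (-i) j
    have b2 := hh_eq d G (-i) j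
    have b3 := hh_eq d G' (-i) j
    have c1 := h.hh_neg hG hG' (-i) j
    have c2 := h.flip.hh_neg hG' hG (-i) j
    rw [neg_neg] at c1 c2
    have d1 := a1.rk
    have d2 := a2.rk
    exact ⟨by omega, fun h => by omega⟩
  · subst hi
    have c1 := h.hh_neg hG hG' 0 j
    rw [neg_zero] at c1
    exact ⟨by omega, fun h => by omega⟩
  · have hg : Good2 d G G' i j := by
      obtain ⟨m, hm⟩ := Int.eq_ofNat_of_zero_le (show 0 ≤ -j by omega)
      obtain rfl : j = -m := by omega
      have g2 := (ih i (-((m + 2 : ℕ) : ℤ)) (by push_cast; omega) (by push_cast; omega)).good hi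
      have g3 := h.good_pos hG hG' i hi _ g2
      have g4 := (ih i (-m - 2) (by omega) (by omega)).rk
      have g5 := (ih i (-m - 2) (by omega) (by omega)).good hi
      have g6 := (ih (i + 2) (-m) (by omega) (by omega)).good (by omega)
      have hm2 : ((m + 2 : ℕ) : ℤ) = (m : ℤ) + 2 := by push_cast; ring
      have hI : NInj d G i ((m : ℤ) + 2) := by rw [← hm2]; exact g3.inj
      have hI' : NInj d G' i ((m : ℤ) + 2) := by rw [← hm2]; exact g3.inj'
      exact core3 h hG hG' i hi m hI hI' g6.inj g6.inj' g5.inj g5.inj' k4 g4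
        (hT i hi m (by omega))
    exact ⟨by have := hg.hh; omega, fun _ => hg⟩

/-- **Main theorem.** If the condition `CritQ` holds for all `i ≥ 1` and `m ≥ M`, then `N ^ i` is an
isomorphism on cohomology in the degrees `j ≤ -M`. -/
theorem main3 (h : LefDual ψ d L G G') (hG : LefComplex d L G) (hG' : LefComplex d L G') (M : ℕ)
    (hT : ∀ i : ℤ, 1 ≤ i → ∀ m : ℕ, M ≤ m → CritQ d L G G' i m)
    (i j : ℤ) (hj : j ≤ -M) : LefDual.Diag d G G' i j := by
  obtain ⟨B, hB0, hB⟩ := hG.bdd
  obtain ⟨B', hB0', hB'⟩ := hG'.bdd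
  have key : ∀ N : ℕ, ∀ i j : ℤ, j ≤ -M → j - i < -2 * (B + B') + N →
      LefDual.Diag d G G' i j := by
    intro N
    induction N with
    | zero =>
      intro i j _ hij
      have hb : ∀ i j : ℤ, j - i < -2 * (B + B') → G i j = ⊥ ∧ G' i j = ⊥ := by
        intro i j hij
        have habs : B + B' < |i| ∨ B + B' < |j| := by
          by_contra hcon
          push Not at hcon
          obtain ⟨h1, h2⟩ := hcon
          have h3 := abs_le.1 h1
          have h4 := abs_le.1 h2
          omega
        constructor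
        · apply hB
          rcases habs with h1 | h1
          · left; omega
          · right; omega
        · apply hB'
          rcases habs with h1 | h1
          · left; omega
          · right; omega
      have hij' : j - i < -2 * (B + B') := by simpa using hij
      obtain ⟨g1, g2⟩ := hb i j hij'
      obtain ⟨g3, g4⟩ := hb (i - 1) (j - 1) (by omega)
      have z1 : Zc d G i j = ⊥ := by unfold Zc; rw [g1]; simp
      have z2 : Zc d G' i j = ⊥ := by unfold Zc; rw [g2]; simp
      have z3 : Bd d G i j = ⊥ := by unfold Bd; rw [g3]; simp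
      have z4 : Bd d G' i j = ⊥ := by unfold Bd; rw [g4]; simp
      refine ⟨by rw [LefDual.rk_bot g1, LefDual.rk_bot g2], fun hi => ?_⟩
      refine h.good_of_inj hG hG' i hi j ?_ ?_
      · unfold NInj; rw [z3]; simp
      · unfold NInj; rw [z4]; simp
    | succ N ihN =>
      intro i j hjM hij
      -- inner induction on the column
      have inner : ∀ R : ℕ, ∀ i' j' : ℤ, j' ≤ -M → j' - i' = j - i → i' < -(B + B') + R →
          LefDual.Diag d G G' i' j' := by
        intro R
        induction R with
        | zero =>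
          intro i' j' _ hd hi'
          have hlt : i' < -(B + B') := by simpa using hi'
          have habs : B + B' < |i'| := by
            rw [abs_of_nonpos (by omega)]
            omega
          have habs2 : B + B' < |i' - 1| := by
            rw [abs_of_nonpos (by omega)]
            omega
          have g1 : G i' j' = ⊥ := hB _ _ (Or.inl (by omega))
          have g2 : G' i' j' = ⊥ := hB' _ _ (Or.inl (by omega))
          exact ⟨by rw [LefDual.rk_bot g1, LefDual.rk_bot g2], fun h => by omega⟩
        | succ R ihR =>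
          intro i' j' hj' hd hi'
          apply step3 h hG hG' M hT i' j' hj'
          · intro i'' j'' hj'' hlt
            apply ihN _ _ hj''
            push_cast at hij
            omega
          · apply ihR
            · omega
            · omega
            · push_cast at hi'
              omega
      exact inner (i + (B + B') + 1).toNat i j hjM rfl (by omega)
  exact key (j - i + 2 * (B + B') + 1).toNat i j hj (by omega)

/-- The statement for `N ^ i` in the degrees `j` with `|j| ≥ M`. -/
theorem good3 (h : LefDual ψ d L G G') (hG : LefComplex d L G) (hG' : LefComplex d L G') (M : ℕ)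
    (hT : ∀ i : ℤ, 1 ≤ i → ∀ m : ℕ, M ≤ m → CritQ d L G G' i m)
    (i j : ℤ) (hi : 1 ≤ i) (hj : (M : ℤ) ≤ |j|) : Good2 d G G' i j := by
  rcases le_total j 0 with h0 | h0
  · rw [abs_of_nonpos h0] at hj
    exact (main3 h hG hG' M hT i j (by omega)).good hi
  · rw [abs_of_nonneg h0] at hj
    obtain ⟨m, rfl⟩ := Int.eq_ofNat_of_zero_le h0
    exact h.good_pos hG hG' i hi m ((main3 h hG hG' M hT i (-m) (by omega)).good hi)

end Pool.Agent.W5h58.MW
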