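import Pool.Agent.W5h58.MW.Defs
import Pool.Agent.W5h58.MW.Ind
import Pool.Agent.X302.MW.Fin

/-!
# Classes without primitive restriction
-/

namespace Pool.Agent.W5h58.MW

universe u v

open Module Pool.Agent.Y143 Pool.Agent.X302.MW

variable {Ω : Type u} [Field Ω] [CharZero Ω] {Γ : Type} {n q : ℕ}

section basic

variable (X : SpecialFibre.{u, v} Ω Γ n q)

/-- The powers of the Lefschetz operator are injective below the middle dimension. -/
lemma lef_pow_inj (a s m : ℕ) (h : a + m + s ≤ n) {x : X.H a} (hx : x ∈ X.gr a m)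
    (h0 : (X.lef a ^ s) x = 0) : x = 0 := by
  obtain ⟨t, ht⟩ : ∃ t : ℕ, n = a + m + s + t := ⟨n - (a + m + s), by omega⟩
  refine X.lef_inj a (n - a - m) x ?_ ?_
  · rwa [show (n : ℤ) - a - ((n - a - m : ℕ) : ℤ) = m by omega]
  · rw [show n - a - m = t + s by omega, pow_add, Module.End.mul_apply, h0, map_zero]

/-- The Lefschetz operator is injective below the middle dimension. -/
lemma lef_injZ (a : ℕ) (m : ℤ) (h : (a : ℤ) + m + 1 ≤ n) {x : X.H a} (hx : x ∈ X.gr a m)
    (h0 : X.lef a x = 0) : x = 0 := by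
  rcases lt_or_ge m 0 with hm | hm
  · rw [X.gr_eq_bot a m (Or.inl hm), Submodule.mem_bot] at hx
    exact hx
  · obtain ⟨k, rfl⟩ := Int.eq_ofNat_of_zero_le hm
    exact lef_pow_inj X a 1 k (by omega) hx (by rw [pow_one]; exact h0)

lemma wt_add {ι : Type*} {C C' : Type*} [AddCommGroup C] [Module Ω C] [AddCommGroup C'] [Module Ω C']
    {T : ι → Module.End Ω C} {T' : ι → Module.End Ω C'} {c : ι → Ω} (hc : ∀ g, c g ≠ 0)
    (f : C →ₗ[Ω] C') (hf : ∀ g x, T' g (f x) = c g • f (T g x)) {μ : ι → Ω} {x : C}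
    (S : Submodule Ω C) (hS : ∀ g, ∀ x ∈ S, T g x ∈ S) (hinj : ∀ x ∈ S, f x = 0 → x = 0)
    (hx : x ∈ S) (hfx : f x ∈ Wt T' (fun g => c g * μ g)) : x ∈ Wt T μ := by
  rw [mem_Wt] at hfx ⊢
  intro g
  obtain ⟨k, hk⟩ := hfx g
  refine ⟨k, ?_⟩
  have h1 : ∀ (k : ℕ) (x : C), ((T' g - (c g * μ g) • (1 : Module.End Ω C')) ^ k) (f x) =
      c g ^ k • f (((T g - μ g • (1 : Module.End Ω C)) ^ k) x) := by
    intro k
    induction k with
    | zero => intro x; simp
    | succ k ih =>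
      intro x
      rw [pow_succ, Module.End.mul_apply, pow_succ (T g - μ g • (1 : Module.End Ω C)),
        Module.End.mul_apply]
      have h2 : (T' g - (c g * μ g) • (1 : Module.End Ω C')) (f x) =
          c g • f ((T g - μ g • (1 : Module.End Ω C)) x) := by
        show T' g (f x) - (c g * μ g) • f x = c g • f (T g x - μ g • x)
        rw [hf, map_sub, map_smul, smul_sub, smul_smul]
      rw [h2, map_smul, ih, smul_smul, ← pow_succ']
  have hmem : ∀ (k : ℕ), ∀ x ∈ S, ((T g - μ g • (1 : Module.End Ω C)) ^ k) x ∈ S := by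
    intro k
    induction k with
    | zero => intro x hx; simpa using hx
    | succ k ih =>
      intro x hx
      rw [pow_succ, Module.End.mul_apply]
      apply ih
      show T g x - μ g • x ∈ S
      exact S.sub_mem (hS g x hx) (S.smul_mem _ hx)
  apply hinj _ (hmem k x hx)
  have h3 := h1 k x
  rw [hk] at h3
  exact ((smul_eq_zero.1 h3.symm).resolve_left (pow_ne_zero _ (hc g)))

end basic

section degeneration

variable (X : Degeneration.{u, v} Ω Γ n q)

lemma res_wt (a : ℕ) {μ : Γ → Ω} {y : X.H a} (hy : y ∈ Wt (X.act a) μ) :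
    X.res a y ∈ Wt (X.act (a + 1)) μ := by
  rw [mem_Wt] at hy ⊢
  intro g
  obtain ⟨k, hk⟩ := hy g
  refine ⟨k, ?_⟩
  have h1 : ∀ (k : ℕ) (x : X.H a),
      ((X.act (a + 1) g - μ g • (1 : Module.End Ω (X.H (a + 1)))) ^ k) (X.res a x) =
        X.res a (((X.act a g - μ g • (1 : Module.End Ω (X.H a))) ^ k) x) := by
    intro k
    induction k with
    | zero => intro x; rfl
    | succ k ih =>
      intro x
      rw [pow_succ, Module.End.mul_apply, pow_succ, Module.End.mul_apply, ← ih]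
      congr 1
      show X.act (a + 1) g (X.res a x) - μ g • X.res a x =
        X.res a (X.act a g x - μ g • x)
      rw [X.res_act, map_sub, map_smul]
  rw [h1, hk, map_zero]

lemma inCol_self (a : ℕ) : InColumn (a : ℤ) a := by
  refine ⟨?_, ⟨0, by ring⟩⟩
  rw [Nat.abs_cast]

/-- A class on `Y^(a+1)` as an element of the part of the column `a` of a given character. -/
lemma single_cls {χ : Γ → Ω} {p : ℤ} (a : ℕ) (j : ℤ) {y : X.H a} (hy : y ∈ X.gr a (n + j - a))
    (hyW : y ∈ Wt (X.act a) (chr X.cyc' χ n p a j)) :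
    (Pi.single a y : X.C) ∈ X.cls χ p a j := by
  classical
  refine ⟨X.single_mem (inCol_self a) (by
    rwa [show (n : ℤ) + j - a + a - a = n + j - a by ring]), ?_⟩
  rw [mem_Wt] at hyW
  show (Pi.single a y : X.C) ∈ Wt (X.actC a) (chr X.cyc' χ n p a j)
  rw [mem_Wt]
  intro g
  obtain ⟨k, hk⟩ := hyW g
  refine ⟨k, ?_⟩
  have h1 : ∀ (k : ℕ) (x : X.H a),
      ((X.actC a g - chr X.cyc' χ n p a j g • (1 : Module.End Ω X.C)) ^ k) (Pi.single a x) =
      Pi.single a (((X.act a g - chr X.cyc' χ n p a j g • (1 : Module.End Ω (X.H a))) ^ k) x) := by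
    intro k
    induction k with
    | zero => intro x; rfl
    | succ k ih =>
      intro x
      rw [pow_succ, Module.End.mul_apply, pow_succ, Module.End.mul_apply, ← ih]
      congr 1
      funext b
      show X.actC a g (Pi.single a x) b - (chr X.cyc' χ n p a j g • (Pi.single a x : X.C)) b = _
      rw [X.actC_apply, Pi.smul_apply]
      by_cases hb : b = a
      · subst hb
        rw [Pi.single_eq_same, Pi.single_eq_same, show ((b : ℤ) - b) / 2 = 0 by simp, zpow_zero,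
          Units.val_one, one_smul]
        rfl
      · rw [Pi.single_eq_of_ne hb, Pi.single_eq_of_ne hb, map_zero, smul_zero, smul_zero, sub_zero]
  rw [h1, hk, Pi.single_zero]

variable [IsAlgClosed Ω]

/-- Decomposition of a class of given character into a primitive class and a multiple of `L`. -/
lemma decomp (a m : ℕ) (w : ℤ) (hw : (n : ℤ) - m - ((a : ℤ) + 1) = w) {χ : Γ → Ω} {p : ℤ}
    {y : X.H a} (hy : y ∈ X.gr a w)
    (hyW : y ∈ Wt (X.act a) (chr X.cyc' χ n p ((a : ℤ) + 1) (-m))) :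
    ∃ y0 ∈ X.gr a w, y0 ∈ Wt (X.act a) (chr X.cyc' χ n p ((a : ℤ) + 1) (-m)) ∧
      (X.lef a ^ (m + 2)) y0 = 0 ∧ ∃ y1 ∈ X.gr a (w - 2), y = y0 + X.lef a y1 := by
  classical
  have hcr : chr X.cyc' χ n p ((a : ℤ) + 1) (-m) = chr X.cyc' χ n p a (-((m + 1 : ℕ) : ℤ)) := by
    rw [show (-(m : ℤ)) = -((m + 1 : ℕ) : ℤ) + 1 by push_cast; ring, chr_d]
  rw [hcr] at hyW
  have h1 : (Pi.single a y : X.C) ∈ X.cls χ p a (-((m + 1 : ℕ) : ℤ)) := by
    apply single_cls X a _ _ hyW
    rwa [show (n : ℤ) + -((m + 1 : ℕ) : ℤ) - a = w by rw [← hw]; push_cast; ring]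
  obtain ⟨x0, hx0, x1, hx1, hx⟩ := (X.cls_lefComplex χ p).prim_decomp a (m + 1) h1
  have h2 := congrFun hx a
  rw [Pi.single_eq_same, Pi.add_apply, X.lefC_apply] at h2
  refine ⟨x0 a, ?_, ?_, ?_, x1 a, ?_, h2⟩
  · have := (hx0.1.1 a).1
    rwa [show (n : ℤ) + -((m + 1 : ℕ) : ℤ) - a + a - a = w by rw [← hw]; push_cast; ring] at this
  · rw [hcr]
    exact wt_comp X hx0.1.2
  · have h3 : (X.lefC ^ (m + 1 + 1)) x0 = 0 := hx0.2
    have h4 := congrFun h3 a
    rw [X.lefC_pow_apply] at h4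
    exact h4
  · have := (hx1.1 a).1
    rwa [show (n : ℤ) + (-((m + 1 : ℕ) : ℤ) - 2) - a + a - a = w - 2 by
      rw [← hw]; push_cast; ring] at this

/-- **Classes without primitive restriction are harmless.** -/
lemma nInj_of_noPrim {χ : Γ → Ω} {p : ℤ} (a m w : ℕ) (hw : (n : ℤ) - m - ((a : ℤ) + 1) = w)
    (hV : HasNoPrimitiveRestriction X.toSpecialFibre a w
      (chr X.cyc' χ n p ((a : ℤ) + 1) (-m)))
    (hI : NInj X.diff (X.cls χ p) ((a : ℤ) + 1) (-m - 2)) :
    NInj X.diff (X.cls χ p) ((a : ℤ) + 1) (-m) := by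
  classical
  set μ := chr X.cyc' χ n p ((a : ℤ) + 1) (-m) with hμ
  have hG := X.cls_lefComplex χ p
  apply nInj_cls X a m hw.symm
  intro y hy hyW hgy
  -- the restriction is a multiple of `L`
  obtain ⟨r, hr, hry⟩ : ∃ r ∈ X.gr (a + 1) ((w : ℤ) - 2), X.res a y = X.lef (a + 1) r := by
    obtain ⟨y0, hy0, hy0W, hy0L, y1, hy1, rfl⟩ := decomp X a m w hw hy hyW
    obtain ⟨t, ht, hty⟩ := hV y0 ⟨hy0, by
      rw [SetLike.mem_coe, LinearMap.mem_ker, show n - a - w + 1 = m + 2 by omega]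
      exact hy0L⟩ hy0W
    refine ⟨t + X.res a y1, Submodule.add_mem _ ht (X.res_gr a _ y1 hy1), ?_⟩
    rw [map_add, hty, X.res_lef, map_add]
  have hgr : X.gys a r = 0 := by
    apply lef_injZ X.toSpecialFibre a ((w : ℤ) - 2 + 2) (by omega) (X.gys_gr a _ r hr)
    rw [← X.gys_lef, ← hry, hgy]
  have hrr : X.res (a + 1) r = 0 := by
    apply lef_injZ X.toSpecialFibre (a + 1 + 1) ((w : ℤ) - 2) (by push_cast; omega)
      (X.res_gr (a + 1) _ r hr)
    rw [← X.res_lef, ← hry, X.res_res]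
  -- the character of `r`
  have hresW : X.res a y ∈ Wt (X.act (a + 1)) μ := res_wt X a hyW
  have hrW : r ∈ Wt (X.act (a + 1)) (chr X.cyc' χ n p ((a : ℤ) + 1) (-((m + 2 : ℕ) : ℤ))) := by
    apply wt_add (c := X.cyc') X.cyc'_ne (X.lef (a + 1))
      (fun g x => X.lef_act (a + 1) g x) (X.gr (a + 1) ((w : ℤ) - 2))
      (fun g x hx => X.act_gr (a + 1) _ g x hx)
      (fun x hx h => lef_injZ X.toSpecialFibre (a + 1) ((w : ℤ) - 2) (by push_cast; omega) hx h) hr
    rw [← hry, ← chr_L X.cyc'_ne]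
    rwa [show (-((m + 2 : ℕ) : ℤ)) + 2 = -m by push_cast; ring]
  -- the class `z`
  set z : X.C := Pi.single (a + 1) r with hz
  have hzG : z ∈ X.cls χ p ((a : ℤ) + 1) (-((m + 2 : ℕ) : ℤ)) := by
    have := single_cls X (χ := χ) (p := p) (a + 1) (-((m + 2 : ℕ) : ℤ)) (y := r) (by
      rwa [show (n : ℤ) + -((m + 2 : ℕ) : ℤ) - ((a + 1 : ℕ) : ℤ) = (w : ℤ) - 2 by
        rw [← hw]; push_cast; ring]) (by push_cast at hrW ⊢; exact hrW)
    rw [hz]
    push_cast at this ⊢
    exact this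
  have hresC : ∀ b, b ≠ a → X.resC z b + X.gysC z b = 0 := by
    intro b hb
    rw [X.gysC_apply, hz, Pi.single_eq_of_ne (by omega : b + 1 ≠ a + 1), map_zero, add_zero]
    cases b with
    | zero => rfl
    | succ b' =>
      rw [X.resC_succ]
      by_cases hb2 : b' = a + 1
      · subst hb2
        rw [Pi.single_eq_same, hrr]
      · rw [Pi.single_eq_of_ne hb2, map_zero]
  have hresCa : X.resC z a + X.gysC z a = 0 := by
    rw [X.gysC_apply, hz, Pi.single_eq_same, hgr, add_zero]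
    cases a with
    | zero => rfl
    | succ a' => rw [X.resC_succ, Pi.single_eq_of_ne (by omega), map_zero]
  have hd : ∀ i, X.diff i z = 0 := by
    intro i
    rw [X.diff_apply]
    have : X.resC z + X.gysC z = 0 := by
      funext b
      by_cases hb : b = a
      · rw [hb]; exact hresCa
      · exact hresC b hb
    rw [this, map_zero]
  have hLz : X.lefC z = Pi.single (a + 1) (X.res a y) := by
    funext b
    rw [X.lefC_apply, hz]
    by_cases hb : b = a + 1
    · subst hb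
      rw [Pi.single_eq_same, Pi.single_eq_same, hry]
    · rw [Pi.single_eq_of_ne hb, Pi.single_eq_of_ne hb, map_zero]
  -- `L z` is a coboundary
  have hLb : X.lefC z ∈ Bd X.diff (X.cls χ p) ((a : ℤ) + 1) (-m) := by
    have hyC : (Pi.single a y : X.C) ∈ X.cls χ p ((a : ℤ) + 1 - 1) (-m - 1) := by
      rw [show (a : ℤ) + 1 - 1 = a by ring]
      apply single_cls X a
      · rwa [show (n : ℤ) + (-m - 1) - a = w by rw [← hw]; ring]
      · have h1 := hyW
        rw [show (-(m : ℤ)) = (-(m : ℤ) - 1) + 1 by ring, chr_d] at h1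
        exact h1
    refine ⟨Pi.single a y, hyC, ?_⟩
    rw [hLz, X.diff_apply, show (a : ℤ) + 1 - 1 + 1 = a + 1 by ring]
    funext b
    by_cases hc : InColumn ((a : ℤ) + 1) b
    · rw [X.cut_of hc, Pi.add_apply, X.gysC_apply]
      have hab : a + 1 ≤ b := by
        have := hc.1
        rw [abs_of_nonneg (by positivity)] at this
        exact_mod_cast this
      obtain ⟨b', rfl⟩ : ∃ b', b = b' + 1 := ⟨b - 1, by omega⟩
      rw [X.resC_succ, Pi.single_eq_of_ne (by omega : b' + 1 + 1 ≠ a), map_zero, add_zero]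
      by_cases hb : b' = a
      · subst hb
        rw [Pi.single_eq_same, Pi.single_eq_same]
      · rw [Pi.single_eq_of_ne hb, Pi.single_eq_of_ne (by omega), map_zero]
    · rw [X.cut_of_not hc, Pi.single_eq_of_ne]
      rintro rfl
      exact hc (inCol_succ_self a)
  -- `z` is a coboundary, by the hard Lefschetz theorem
  have hzZ : z ∈ Zc X.diff (X.cls χ p) ((a : ℤ) + 1) (-((m + 2 : ℕ) : ℤ)) := ⟨hzG, hd _⟩
  have hzB : z ∈ Bd X.diff (X.cls χ p) ((a : ℤ) + 1) (-((m + 2 : ℕ) : ℤ)) := by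
    apply hG.hlInj _ (m + 2) z hzZ
    have h1 := hG.Lpow_bd (m + 1) hLb
    rw [← Module.End.mul_apply, ← pow_succ] at h1
    rwa [show (-(m : ℤ)) + 2 * ((m + 1 : ℕ) : ℤ) = ((m + 2 : ℕ) : ℤ) by push_cast; ring] at h1
  have hm2 : (-((m + 2 : ℕ) : ℤ)) = -m - 2 := by push_cast; ring
  rw [hm2] at hzG hzZ hzB
  have hzN : z ∈ Bd X.diff (X.cls χ p) (-((a : ℤ) + 1)) (-m - 2) := by
    apply hI
    refine ⟨⟨?_, hd _⟩, hzB⟩
    rw [SetLike.mem_coe, hG.neg]
    exact hzG
  have hLN := hG.Lpow_bd 1 hzN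
  rw [pow_one, hLz, show (-(m : ℤ) - 2) + 2 * ((1 : ℕ) : ℤ) = -m by push_cast; ring] at hLN
  have h5 := Sym.bd_cl_le χ n p _ _ hLN
  rw [bd_tot_eq X, show (n : ℤ) + -(m : ℤ) - -((a : ℤ) + 1) = (w : ℤ) + 2 * ((a : ℤ) + 1) by
    rw [← hw]; ring] at h5
  exact h5

end degeneration

end Pool.Agent.W5h58.MW
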