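import Pool.Agent.X302.MW.Defs

/-!
# Primitive cohomology of the strata and harmless characters
-/

namespace Pool.Agent.W5h58.MW

universe u v

open Module Pool.Agent.Y143 Pool.Agent.X302.MW

variable {Ω : Type u} [Field Ω] [CharZero Ω] {Γ : Type} {n q : ℕ}

/-- The primitive cohomology `P^w(Y^(b+1))`: the kernel of `L^(n - b - w + 1)` on `H^w(Y^(b+1))`, where
`n - b` is the dimension of the stratum `Y^(b+1)` and `w ≤ n - b`. -/
noncomputable def primOf (X : SpecialFibre.{u, v} Ω Γ n q) (b w : ℕ) : Submodule Ω (X.H b) :=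
  X.gr b w ⊓ LinearMap.ker (X.lef b ^ (n - b - w + 1))

/-- The restrictions to `Y^(a+2)` of the classes of character `χ` (simultaneous generalized eigenspace
of the operators in `Γ`) in the primitive cohomology `P^w(Y^(a+1))` have no primitive component in
`P^w(Y^(a+2))`: they are in the image of the Lefschetz operator `H^(w-2)(Y^(a+2)) → H^w(Y^(a+2))`. This
is the case if `χ` does not occur in both of `P^w(Y^(a+1))` and `P^w(Y^(a+2))`. -/
def HasNoPrimitiveRestriction (X : SpecialFibre.{u, v} Ω Γ n q) (a w : ℕ) (χ : Γ → Ω) : Prop :=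
  ∀ x ∈ primOf X a w, x ∈ Wt (X.act a) χ →
    ∃ t ∈ X.gr (a + 1) ((w : ℤ) - 2), X.res a x = X.lef (a + 1) t

/-- The character `χ` is harmless in weight `w` on `Y^(a+2)`: the primitive classes of character `χ` in
`H^w(Y^(a+1))` have no primitive restriction to `Y^(a+2)`, or `w = 2` and the classes of character `χ`
in `H^2(Y^(a+1))` are algebraic, or `χ` is simple in `E_1^(a+1, w)`, or the dual character is covered. -/
def HarmlessAt {X : SpecialFibre.{u, v} Ω Γ n q} (A : DivisorClasses X) (a w : ℕ)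
    (χ : Γ → Ω) : Prop :=
  HasNoPrimitiveRestriction X a w χ ∨ (w = 2 ∧ AlgebraicAt A a χ) ∨
    X.SimpleAt ((a : ℤ) + 1) w χ ∨ CoveredAt X ((a : ℤ) + 1) w (dualAt X w χ)

end Pool.Agent.W5h58.MW
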