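import Pool.Agent.W458.MF.FDefs

/-!
# Families of Weil polynomials with large monodromy: definitions
-/

open Polynomial

namespace Pool.Agent.W5h58.MW

open Pool.Agent.W458.MF

/-- A family of Weil polynomials in characteristic `p`: for every `m` the finite set `S m` of the
parameters with coordinates in the field with `p ^ m` elements, and for every parameter `s` a polynomial
`real m s` with integral coefficients; this polynomial, the weight `dim` (the dimension of the varieties
of the family), the number `half` (which is `dim / 2` if `dim` is even), the number `extra` of forced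
eigenvalues and the sign `sign` determine the characteristic polynomial `frobPoly` of the Frobenius. -/
structure WeilFamily where
  S : ℕ → Type
  fin : ∀ m, Fintype (S m)
  real : ∀ m, S m → ℤ[X]
  dim : ℕ
  half : ℕ
  extra : ℕ
  sign : ℤˣ

attribute [instance] WeilFamily.fin

/-- The characteristic polynomial `x ^ g * h (x + q / x) * extraPoly e r` of the Frobenius of the member
with parameter `s`, where `h = real m s` has degree `g`, `q = p ^ (dim m)`, `e = extra` and
`r = sign * p ^ (half m)`. -/
noncomputable def WeilFamily.frobPoly (F : WeilFamily) (p m : ℕ) (s : F.S m) : ℤ[X] :=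
  Fam.weilPoly (p ^ (F.dim * m)) (F.real m s) *
    Fam.extraPoly F.extra (F.sign * (p : ℤ) ^ (F.half * m))

/-- The proportion of the parameters in `S m` for which the reductions of the polynomial `real m s`
modulo `l` and `l'` are in `E` and `E'`. -/
noncomputable def WeilFamily.frequency (F : WeilFamily) (m l l' : ℕ) (E : Set (ZMod l)[X])
    (E' : Set (ZMod l')[X]) : ℝ :=
  ({s : F.S m | (F.real m s).map (Int.castRingHom (ZMod l)) ∈ E ∧
      (F.real m s).map (Int.castRingHom (ZMod l')) ∈ E'}.ncard : ℝ) / (Nat.card (F.S m) : ℝ)

/-- The family has large monodromy in characteristic `p`: the polynomials `real m s` are monic of degree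
`g > 0`, and for all large primes `l ≠ l'` modulo which the polynomial `D` splits the Frobenius
endomorphisms of the members over the field with `p ^ m` elements, modulo `l` and modulo `l'`, are
asymptotically, as `m` tends to infinity, independent and distributed as random similitudes of symplectic
or quadratic spaces (in the sense of `IsLaw`), as far as their characteristic polynomials are
concerned. -/
structure WeilFamily.HasLaw (F : WeilFamily) (p g l₀ : ℕ) (D : ℤ[X])
    (π : ∀ m l : ℕ, Set (ZMod l)[X] → ℝ) : Prop where
  pos : 0 < g
  real_monic : ∀ m, 0 < m → ∀ s : F.S m, (F.real m s).Monic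
  real_degree : ∀ m, 0 < m → ∀ s : F.S m, (F.real m s).natDegree = g
  monic : D.Monic
  separable : (D.map (Int.castRingHom ℚ)).Separable
  law : Fam.IsLaw p F.dim F.half g F.extra F.sign π
  equidistributed : ∀ l l' : ℕ, l.Prime → l'.Prime → l₀ ≤ l → l₀ ≤ l' → l ≠ l' →
    Fam.SplitsAt D l → Fam.SplitsAt D l' → ∀ ε : ℝ, 0 < ε → ∃ m₀ : ℕ, ∀ m ≥ m₀,
      Nonempty (F.S m) → ∀ (E : Set (ZMod l)[X]) (E' : Set (ZMod l')[X]),
        |F.frequency m l l' E E' - π m l E * π m l' E'| ≤ ε

/-- The family has large monodromy in characteristic `p`; its members have no forced eigenvalues if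
`extra = 0`, the forced eigenvalue `sign * p ^ (half m)` if `extra = 1`, and both of the forced
eigenvalues `p ^ (half m)`, `-p ^ (half m)` if `extra = 2`. -/
def WeilFamily.HasLargeMonodromy (F : WeilFamily) (p : ℕ) : Prop :=
  ∃ (g l₀ : ℕ) (D : ℤ[X]) (π : ∀ m l : ℕ, Set (ZMod l)[X] → ℝ), F.HasLaw p g l₀ D π

end Pool.Agent.W5h58.MW
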