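import Pool.Agent.W5h58.MW.FamSieve

/-!
# Almost all tuples of members of families of Weil polynomials have balanced relations
-/

open Polynomial

namespace Pool.Agent.W5h58.MW

open Pool.Agent.H914 Pool.Agent.W534 Pool.Agent.W521.Frob Pool.Agent.W458.MF

/-- The data of a family with large monodromy. -/
structure WData (F : WeilFamily) (p : ℕ) (o : Prop) (g l₀ : ℕ)
    (D : ℤ[X]) (π : ∀ m l : ℕ, Set (ZMod l)[X] → ℝ) : Prop where
  real_monic : ∀ m, 0 < m → ∀ s : F.S m, (F.real m s).Monic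
  real_degree : ∀ m, 0 < m → ∀ s : F.S m, (F.real m s).natDegree = g
  rank : o → 3 ≤ g
  even : F.extra ≠ 0 → F.dim = 2 * F.half ∧ (F.extra = 1 ∨ F.extra = 2)
  monic : D.Monic
  separable : (D.map (Int.castRingHom ℚ)).Separable
  equi : F.Equi {l | l.Prime ∧ l₀ ≤ l ∧ SplitsMod D l} π
  nonneg : ∀ l : ℕ, l.Prime → ∀ (m : ℕ) (E : Set (ZMod l)[X]), 0 ≤ π m l E
  le_one : ∀ l : ℕ, l.Prime → ∀ (m : ℕ) (E : Set (ZMod l)[X]), π m l E ≤ 1
  mono : ∀ l : ℕ, l.Prime → ∀ (m : ℕ) (E E' : Set (ZMod l)[X]), E ⊆ E' → π m l E ≤ π m l E'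
  dens : 0 < g → ∀ N : ℕ, 0 < N → ∃ c : ℝ, 0 < c ∧ ∃ l₁ : ℕ, ∀ l : ℕ, l.Prime → l₁ ≤ l →
    ¬ l ∣ p → ∀ m : ℕ, c ≤ π m l (irrSet g l) ∧ c ≤ π m l (splitSet g l (p ^ (F.dim * m))) ∧
      (¬ o → c ≤ π m l (flipSet g N l (p ^ (F.dim * m)))) ∧
      (o → c ≤ π m l (flip2Set g N l (p ^ (F.dim * m))) ∧ c ≤ π m l (fixSet g l))

lemma exists_wdata (hD : St_DENS) (hO : St_ODENS) (hE : St_EDENS) {F : WeilFamily}
    {p g l₀ : ℕ} {D : ℤ[X]} {π : ∀ m l : ℕ, Set (ZMod l)[X] → ℝ}
    (h : F.HasLaw p g l₀ D π) : ∃ o : Prop, WData F p o g l₀ D π := by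
  have hnat : ∀ m, (F.sign * (p : ℤ) ^ (F.half * m) : ℤ).natAbs = p ^ (F.half * m) := by
    intro m
    rcases unit_sq F.sign ((p : ℤ) ^ (F.half * m)) with h | h <;> rw [h]
    · rw [Int.natAbs_pow, Int.natAbs_natCast]
    · rw [Int.natAbs_neg, Int.natAbs_pow, Int.natAbs_natCast]
  rcases h.law with ⟨he, hπ⟩ | ⟨he, hd, hg3, κ, hπ⟩ | ⟨he, hd, hg3, α, κ, hπ⟩
  · refine ⟨False, {
      real_monic := h.real_monic
      real_degree := h.real_degree
      rank := False.elim
      even := fun h => absurd he h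
      monic := h.monic
      separable := h.separable
      equi := fun l hl l' hl' hll => h.equidistributed l l' hl.1 hl'.1 hl.2.1 hl'.2.1 hll
        hl.2.2 hl'.2.2
      nonneg := fun l _ m E => by rw [hπ]; exact law_nonneg _
      le_one := fun l hl m E => by rw [hπ]; exact law_le_one hl _
      mono := fun l hl m E E' hh => by rw [hπ]; exact law_mono hl hh
      dens := ?_ }⟩
    intro hg N hN
    obtain ⟨c, hc, l₁, h1⟩ := hD g N hg hN
    refine ⟨c, hc, l₁, fun l hl hll hlp m => ?_⟩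
    have h2 := h1 l hl hll (p ^ (F.dim * m)) fun h => hlp (hl.dvd_of_dvd_pow h)
    simp only [hπ, law_symp]
    exact ⟨h2.2.2, h2.2.1, fun _ => h2.1, fun h => h.elim⟩
  · refine ⟨True, {
      real_monic := h.real_monic
      real_degree := h.real_degree
      rank := fun _ => hg3
      even := fun h => absurd he h
      monic := h.monic
      separable := h.separable
      equi := fun l hl l' hl' hll => h.equidistributed l l' hl.1 hl'.1 hl.2.1 hl'.2.1 hll
        hl.2.2 hl'.2.2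
      nonneg := fun l _ m E => by rw [hπ]; exact law_nonneg _
      le_one := fun l hl m E => by rw [hπ]; exact law_le_one hl _
      mono := fun l hl m E E' hh => by rw [hπ]; exact law_mono hl hh
      dens := ?_ }⟩
    intro _ N hN
    obtain ⟨c, hc, l₁, h1⟩ := hO g N hg3 hN
    refine ⟨c, hc, l₁, fun l hl hll hlp m => ?_⟩
    have h2 := h1 l hl hll (p ^ (F.half * m)) (fun h => hlp (hl.dvd_of_dvd_pow h)) (κ m l)
    have e : (p ^ (F.half * m)) ^ 2 = p ^ (F.dim * m) := by
      rw [← pow_mul, hd]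
      congr 1
      ring
    simp only [hπ, law_orth]
    rw [e] at h2
    exact ⟨h2.2.2.1, h2.2.1, fun h => (h trivial).elim, fun _ => ⟨h2.1, h2.2.2.2⟩⟩
  · refine ⟨False, {
      real_monic := h.real_monic
      real_degree := h.real_degree
      rank := False.elim
      even := fun _ => ⟨hd, he⟩
      monic := h.monic
      separable := h.separable
      equi := fun l hl l' hl' hll => h.equidistributed l l' hl.1 hl'.1 hl.2.1 hl'.2.1 hll
        hl.2.2 hl'.2.2
      nonneg := fun l _ m E => by rw [hπ]; exact law_nonneg _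
      le_one := fun l hl m E => by rw [hπ]; exact law_le_one hl _
      mono := fun l hl m E E' hh => by rw [hπ]; exact law_mono hl hh
      dens := ?_ }⟩
    intro _ N hN
    obtain ⟨c, hc, l₁, h1⟩ := hE g N hg3 hN
    refine ⟨c, hc, l₁, fun l hl hll hlp m => ?_⟩
    have hlr : ¬ (l : ℤ) ∣ (F.sign * (p : ℤ) ^ (F.half * m) : ℤ) := by
      intro hdvd
      rw [Int.natCast_dvd, hnat] at hdvd
      exact hlp (hl.dvd_of_dvd_pow hdvd)
    have h2 := h1 l hl hll _ hlr F.extra he (α m l) (κ m l)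
    have e' : (F.sign * (p : ℤ) ^ (F.half * m) : ℤ).natAbs ^ 2 = p ^ (F.dim * m) := by
      rw [hnat, ← pow_mul, hd]
      congr 1
      ring
    rw [e'] at h2
    simp only [hπ, law_ext]
    exact ⟨h2.2.2, h2.2.1, fun _ => h2.1, fun h => h.elim⟩

/-- The multiplicative relations between the roots of the Weil polynomials are balanced. -/
structure PSetup {I : Type} (p m : ℕ) (d : I → ℕ) (h : I → ℤ[X]) (R : ℤ[X]) : Prop where
  hp : 1 < p
  hm : 0 < m
  monic : ∀ i, (h i).Monic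
  hRp : aeval (p : ℂ) R = 0
  bal : Balanced (fun i => p ^ (d i * m)) h R
  sep : ∀ i, ((weil (p ^ (d i * m)) (h i)).map (Int.castRingHom ℚ)).Separable

theorem weil_setup (hS : St_SIEVE) (hD : St_DENS) (hO : St_ODENS) (hE : St_EDENS) (hSPL : St_SPL)
    (hUNI : St_UNI) (hNT : St_NT2) {p : ℕ} (hp : p.Prime)
    {I : Type} [Fintype I] (F : I → WeilFamily) (g l₀ : I → ℕ)
    (D : I → ℤ[X]) (π : I → ∀ m l : ℕ, Set (ZMod l)[X] → ℝ)
    (hF : ∀ i, (F i).HasLaw p (g i) (l₀ i) (D i) (π i)) (ε : ℝ)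
    (hε : 0 < ε) :
    ∃ m₀ : ℕ, ∀ m ≥ m₀, ({s : ∀ i, (F i).S m |
        ¬ PSetup p m (fun i => (F i).dim) (fun i => (F i).real m (s i))
          (X - C (p : ℤ))}.ncard : ℝ) ≤
      ε * ∏ i, (Nat.card ((F i).S m) : ℝ) := by
  classical
  choose o hM using fun i => exists_wdata hD hO hE (hF i)
  set R : ℤ[X] := X - C (p : ℤ) with hRdef
  have hRm : R.Monic := monic_X_sub_C _
  have hRs : (R.map (Int.castRingHom ℚ)).Separable := by
    rw [hRdef, Polynomial.map_sub, map_X, map_C]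
    exact separable_X_sub_C
  have hRp : aeval (p : ℂ) R = 0 := by
    rw [hRdef]
    simp
  obtain ⟨N, hN, hNz⟩ := hUNI (2 * ∑ i, g i)
  have hempty : ∀ m, (∃ i, IsEmpty ((F i).S m)) → ∀ B : Set (∀ i, (F i).S m),
      (B.ncard : ℝ) ≤ ε * ∏ i, (Nat.card ((F i).S m) : ℝ) := by
    rintro m ⟨i, hi⟩ B
    have : IsEmpty (∀ i, (F i).S m) := ⟨fun s => hi.false (s i)⟩
    rw [Set.eq_empty_of_isEmpty B, Set.ncard_empty, Nat.cast_zero]
    positivity
  have hg : ∀ i, 0 < g i := fun i => (hF i).pos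
  choose c hc l₁ hl₁ using fun i => (hM i).dens (hg i) N hN
  obtain ⟨c₀, hc₀, hc₀c⟩ : ∃ c₀ : ℝ, 0 < c₀ ∧ ∀ i, c₀ ≤ c i := by
    rcases isEmpty_or_nonempty I with hI | hI
    · exact ⟨1, one_pos, fun i => hI.elim i⟩
    · obtain ⟨i, hi⟩ := Finite.exists_min c
      exact ⟨c i, hc i, hi⟩
  set L : ℕ := p + 3 + ∑ i, (l₀ i + l₁ i) with hL
  have hLi : ∀ i, l₀ i + l₁ i ≤ L := fun i => by
    have := Finset.single_le_sum (f := fun i => l₀ i + l₁ i) (fun j _ => Nat.zero_le _)
      (Finset.mem_univ i)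
    omega
  -- the primes
  obtain ⟨A, hA, hAs, hAd⟩ := exists_common (I := Option I)
    (fun x => match x with | none => R | some i => D i)
    (fun x => match x with | none => hRm | some i => (hM i).monic)
    (fun x => match x with | none => hRs | some i => (hM i).separable)
  have hAR : R ∣ A := hAd none
  have hAD : ∀ i, D i ∣ A := fun i => hAd (some i)
  set G : Set ℕ := {l : ℕ | l.Prime ∧ SplitsMod A l} \ {l | l ≤ L} with hG
  have hinf : G.Infinite := (hSPL A hA hAs).sdiff (Set.finite_le_nat L)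
  have hGp : ∀ l ∈ G, l.Prime ∧ SplitsMod A l ∧ L < l := fun l hl =>
    ⟨hl.1.1, hl.1.2, not_le.1 hl.2⟩
  have hGD : ∀ i, ∀ l ∈ G, l ∈ {l | l.Prime ∧ l₀ i ≤ l ∧ SplitsMod (D i) l} := by
    intro i l hl
    obtain ⟨h1, h2, h3⟩ := hGp l hl
    have h4 := hLi i
    exact ⟨h1, by omega, splitsMod_of_dvd (hM i).monic (hAD i) h1 h2⟩
  have hGlp : ∀ l ∈ G, ¬ l ∣ p := by
    intro l hl h
    have h1 := (hGp l hl).2.2
    have h3 := Nat.le_of_dvd hp.pos h
    omega
  have hdens : ∀ i, ∀ l ∈ G, ∀ m : ℕ, c₀ ≤ π i m l (irrSet (g i) l) ∧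
      c₀ ≤ π i m l (splitSet (g i) l (p ^ ((F i).dim * m))) ∧
      (¬ o i → c₀ ≤ π i m l (flipSet (g i) N l (p ^ ((F i).dim * m)))) ∧
      (o i → c₀ ≤ π i m l (flip2Set (g i) N l (p ^ ((F i).dim * m))) ∧
        c₀ ≤ π i m l (fixSet (g i) l)) := by
    intro i l hl m
    have h4 := hLi i
    have h3 := (hGp l hl).2.2
    obtain ⟨h5, h6, h7, h8⟩ := hl₁ i l (hGp l hl).1 (by omega) (hGlp l hl) m
    have h9 := hc₀c i
    exact ⟨h9.trans h5, h9.trans h6, fun h => h9.trans (h7 h),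
      fun h => ⟨h9.trans (h8 h).1, h9.trans (h8 h).2⟩⟩
  have hE : ∀ (κ : I × Fin 3) i, ∀ l ∈ G, ∀ m, c₀ ≤ π i m l (evts o (fun i => (F i).dim) g N p κ i m l) := by
    rintro ⟨i₀, e⟩ i l hl m
    obtain ⟨h1, h2, h3, h4⟩ := hdens i l hl m
    have huniv : c₀ ≤ π i m l Set.univ :=
      h1.trans ((hM i).mono l (hGp l hl).1 m _ _ (Set.subset_univ _))
    unfold evts
    fin_cases e
    · dsimp only
      split_ifs
      · exact h1
      · exact huniv
    · dsimp only
      split_ifs with hi ho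
      · exact (h4 ho).1
      · exact h3 ho
      · exact h2
    · dsimp only
      split_ifs with hi
      · exact (h4 hi.2).2
      · exact huniv
  obtain ⟨m₀, h⟩ := almost_all_weil hS (K := I × Fin 3) F G hinf π
    (fun i l hl l' hl' hll => (hM i).equi l (hGD i l hl) l' (hGD i l' hl') hll)
    (fun i l hl m E => (hM i).nonneg l (hGp l hl).1 m E)
    (fun i l hl m E => (hM i).le_one l (hGp l hl).1 m E)
    (evts o (fun i => (F i).dim) g N p) hc₀ hE ε hε
  refine ⟨m₀ + 1, fun m hm => le_trans ?_ (h m (by omega))⟩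
  have hm0 : 0 < m := by omega
  refine Nat.cast_le.2 (Set.ncard_le_ncard ?_ (Set.toFinite _))
  intro s hs hpat
  apply hs
  have hmon : ∀ i, ((F i).real m (s i)).Monic := fun i => (hM i).real_monic m hm0 (s i)
  have hdeg : ∀ i, ((F i).real m (s i)).natDegree = g i := fun i => (hM i).real_degree m hm0 (s i)
  have hnt := hNT o (fun i => p ^ ((F i).dim * m))
    (fun i => (F i).real m (s i)) R N hN (fun i => pow_pos hp.pos _)
    hmon (fun i => by rw [hdeg i]; exact hg i) hRm (by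
      rintro i z ht ⟨P, hP0, hPd, hPz⟩
      refine hNz z ht ⟨P, hP0, hPd.trans ?_, hPz⟩
      rw [hdeg i]
      exact Nat.mul_le_mul_left 2 (Finset.single_le_sum (fun j _ => Nat.zero_le _)
        (Finset.mem_univ i)))
    (by
      intro i
      obtain ⟨l, hl, h1⟩ := hpat (i, 0)
      have h2 := h1 i
      unfold evts at h2
      dsimp only at h2
      rw [if_pos rfl] at h2
      exact ⟨l, (hGp l hl).1, by rw [hdeg i]; exact h2⟩)
    (by
      intro i₀ ho
      obtain ⟨l, hl, h1⟩ := hpat (i₀, 1)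
      have h3 := hGp l hl
      refine ⟨l, h3.1, by omega, fun i h => hGlp l hl (h3.1.dvd_of_dvd_pow h),
        splitsMod_of_dvd hRm hAR h3.1 h3.2.1, ?_, fun i hi => ?_⟩
      · have h2 := h1 i₀
        unfold evts at h2
        dsimp only at h2
        rw [if_pos rfl, if_neg ho] at h2
        rw [hdeg i₀]
        exact h2
      · have h2 := h1 i
        unfold evts at h2
        dsimp only at h2
        rw [if_neg hi] at h2
        rw [hdeg i]
        exact h2)
    (by
      intro i₀ ho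
      refine ⟨by rw [hdeg i₀]; exact (hM i₀).rank ho, ?_, ?_⟩
      · obtain ⟨l, hl, h1⟩ := hpat (i₀, 2)
        have h2 := h1 i₀
        unfold evts at h2
        dsimp only at h2
        rw [if_pos ⟨rfl, ho⟩] at h2
        exact ⟨l, (hGp l hl).1, by rw [hdeg i₀]; exact h2⟩
      · obtain ⟨l, hl, h1⟩ := hpat (i₀, 1)
        have h3 := hGp l hl
        refine ⟨l, h3.1, by omega, fun i h => hGlp l hl (h3.1.dvd_of_dvd_pow h),
          splitsMod_of_dvd hRm hAR h3.1 h3.2.1, ?_, fun i hi => ?_⟩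
        · have h2 := h1 i₀
          unfold evts at h2
          dsimp only at h2
          rw [if_pos rfl, if_pos ho] at h2
          rw [hdeg i₀]
          exact h2
        · have h2 := h1 i
          unfold evts at h2
          dsimp only at h2
          rw [if_neg hi] at h2
          rw [hdeg i]
          exact h2)
  exact {
    hp := hp.one_lt
    hm := hm0
    monic := hmon
    hRp := hRp
    bal := hnt.1
    sep := hnt.2 }

end Pool.Agent.W5h58.MW
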