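import Pool.Agent.W5h58.MW.Crit

/-!
# The weight-monodromy theorem for harmless characters
-/

namespace Pool.Agent.W5h58.MW

universe u v

open Module Pool.Agent.Y143 Pool.Agent.X302.MW

variable {Ω : Type u} [Field Ω] [CharZero Ω] {Γ : Type} {n q : ℕ}

section degeneration

variable [IsAlgClosed Ω] (X : Degeneration.{u, v} Ω Γ n q)

lemma critJ_of_critI {χ : Γ → Ω} {p : ℤ} {i : ℤ} {m : ℕ}
    (h : CritI X.diff X.lefC (X.cls χ p) i m) : CritJ X.diff X.lefC (X.cls χ p) i m := by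
  rcases h with h | h
  · exact Or.inl fun _ _ _ => h
  · exact Or.inr h

lemma crit_of_harmless (A : DivisorClasses X.toSpecialFibre) (χ : Γ → Ω) (p : ℤ) (a m w : ℕ)
    (hn : a + 1 + w ≤ n) (hw : (n : ℤ) - m - ((a : ℤ) + 1) = w)
    (h : HarmlessAt A a w (chr X.cyc' χ n p ((a : ℤ) + 1) (-m))) :
    CritJ X.diff X.lefC (X.cls χ p) ((a : ℤ) + 1) m ∨
      CritS X.diff X.lefC (X.cls χ p) ((a : ℤ) + 1) m ∨
      CoveredAt X.toSpecialFibre ((a : ℤ) + 1) w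
        (dualAt X.toSpecialFibre w (chr X.cyc' χ n p ((a : ℤ) + 1) (-m))) := by
  rcases h with h | h | h | h
  · exact Or.inl (Or.inl fun _ hI _ => nInj_of_noPrim X a m w hw h hI)
  · rcases crit_of_controlled X A χ p a m w hn hw (Or.inr (Or.inr (Or.inr h))) with h | h
    · exact Or.inl (critJ_of_critI X h)
    · exact Or.inr h
  · rcases crit_of_controlled X A χ p a m w hn hw (Or.inl h) with h | h
    · exact Or.inl (critJ_of_critI X h)
    · exact Or.inr h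
  · exact Or.inr (Or.inr h)

lemma critQ_cls (A : DivisorClasses X.toSpecialFibre) (M : ℕ)
    (hA : ∀ (a w : ℕ) (χ : Γ → Ω), 2 ≤ w → a + 1 + w + M ≤ n → HarmlessAt A a w χ)
    (χ : Γ → Ω) (p : ℤ) (i : ℤ) (hi : 1 ≤ i) (m : ℕ) (hm : M ≤ m) :
    CritQ X.diff X.lefC (X.cls χ p) (X.cls (X.dualChar χ) (1 - p)) i m := by
  obtain ⟨a, ha⟩ := Int.eq_ofNat_of_zero_le (show 0 ≤ i - 1 by omega)
  obtain rfl : i = (a : ℤ) + 1 := by omega
  rcases lt_or_ge ((n : ℤ) - m - ((a : ℤ) + 1)) 2 with hw | hw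
  · exact Or.inl ⟨critJ_of_critI X (critI_low X A χ p a m hw),
      critJ_of_critI X (critI_low X A _ _ a m hw)⟩
  obtain ⟨w, hw'⟩ := Int.eq_ofNat_of_zero_le (show 0 ≤ (n : ℤ) - m - ((a : ℤ) + 1) by omega)
  have h2 : 2 ≤ w := by omega
  have hn : a + 1 + w + M ≤ n := by omega
  have hdual := chr_dual X χ p ((a : ℤ) + 1) m hw'
  rcases crit_of_harmless X A χ p a m w (by omega) hw' (hA _ _ _ h2 hn) with h | h | h
  · rcases crit_of_harmless X A (X.dualChar χ) (1 - p) a m w (by omega) hw'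
      (hA _ _ _ h2 hn) with h' | h' | h'
    · exact Or.inl ⟨h, h'⟩
    · exact Or.inr (Or.inr h')
    · rw [hdual, dualAt_dualAt] at h'
      exact Or.inr (Or.inl (critS_of_covered X χ p a m w hw' h'))
  · exact Or.inr (Or.inl h)
  · rw [← hdual] at h
    exact Or.inr (Or.inr (critS_of_covered X _ _ a m w hw' h))

lemma good_cls' (A : DivisorClasses X.toSpecialFibre) (M : ℕ)
    (hA : ∀ (a w : ℕ) (χ : Γ → Ω), 2 ≤ w → a + 1 + w + M ≤ n → HarmlessAt A a w χ)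
    (χ : Γ → Ω) (p : ℤ) (i j : ℤ) (hi : 1 ≤ i) (hj : (M : ℤ) ≤ |j|) :
    Good2 X.diff (X.cls χ p) (X.cls (X.dualChar χ) (1 - p)) i j :=
  good3 (X.cls_dual p χ) (X.cls_lefComplex χ p) (X.cls_lefComplex (X.dualChar χ) (1 - p)) M
    (fun i hi m hm => critQ_cls X A M hA χ p i hi m hm) i j hi hj

theorem nInj_tot' (A : DivisorClasses X.toSpecialFibre) (M : ℕ)
    (hA : ∀ (a w : ℕ) (χ : Γ → Ω), 2 ≤ w → a + 1 + w + M ≤ n → HarmlessAt A a w χ)
    (i : ℤ) (hi : 1 ≤ i) (j : ℤ) (hj : (M : ℤ) ≤ |j|) : NInj X.diff X.tot i j := by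
  rintro x ⟨hx1, hx2⟩
  apply mem_of_prj_mem (X.sym.comm (-i))
  intro μ
  obtain ⟨χ, hχ⟩ := exists_chr X μ (-i) j
  have h1 := X.sym.prj_zc χ n 0 hx1
  have h2 := X.sym.prj_bd χ n 0 hx2
  have h3 := (good_cls' X A M hA χ 0 i j hi hj).inj
  have h4 : prj (X.actC (-i)) (X.sym.comm (-i)) μ x =
      prj (X.actC i) (X.sym.comm i) (chr X.cyc' χ n 0 i j) x := by
    have h5 := prj_equiv (X.sym.comm i) (X.sym.comm (-i)) (c := fun g => X.cyc' g ^ i)
      (fun g => zpow_ne_zero _ (X.cyc'_ne g)) (1 : Module.End Ω X.C)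
      (fun g x => by
        have := X.sym.shift i i g x
        rwa [show i - 2 * i = -i by ring] at this) (chr X.cyc' χ n 0 i j) x
    rw [← chr_neg X.cyc'_ne, hχ] at h5
    exact h5
  rw [hχ] at h1
  have h6 : prj (X.actC (-i)) (X.sym.comm (-i)) μ x ∈ Bd X.diff (X.cls χ 0) (-i) j := by
    apply h3
    refine ⟨h1, ?_⟩
    rw [h4]
    exact h2
  exact Sym.bd_cl_le χ n 0 _ _ h6

theorem nSurj_tot' (A : DivisorClasses X.toSpecialFibre) (M : ℕ)
    (hA : ∀ (a w : ℕ) (χ : Γ → Ω), 2 ≤ w → a + 1 + w + M ≤ n → HarmlessAt A a w χ)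
    (i : ℤ) (hi : 1 ≤ i) (j : ℤ) (hj : (M : ℤ) ≤ |j|) : NSurj X.diff X.tot i j := by
  intro y hy
  apply mem_of_prj_mem (X.sym.comm i)
  intro μ
  obtain ⟨χ, hχ⟩ := exists_chr X μ i j
  have h1 := X.sym.prj_zc χ n 0 hy
  rw [hχ] at h1
  have h3 := (good_cls' X A M hA χ 0 i j hi hj).surj
  obtain ⟨u, hu, v, hv, huv⟩ := Submodule.mem_sup.1 (h3 h1)
  exact Submodule.mem_sup.2 ⟨u, Sym.zc_cl_le χ n 0 _ _ hu, v, Sym.bd_cl_le χ n 0 _ _ hv, huv⟩

/-- `H^k` is mw pure if all characters are harmless in the weights `w ≥ 2` on the `Y^(a+2)` with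
`a + 1 + w ≤ min(k, 2 n - k)`. -/
theorem mw (A : DivisorClasses X.toSpecialFibre) (k : ℕ)
    (hA : ∀ (a w : ℕ) (χ : Γ → Ω), 2 ≤ w → a + 1 + w ≤ k → a + 1 + w + k ≤ 2 * n →
      HarmlessAt A a w χ) :
    IsMWPure q k (X.actV k X.frob) (X.N k) := by
  have hA' : ∀ (a w : ℕ) (χ : Γ → Ω), 2 ≤ w → a + 1 + w + ((k : ℤ) - n).natAbs ≤ n →
      HarmlessAt A a w χ := by
    intro a w χ h1 h2
    apply hA a w χ h1 <;> omega
  apply X.toSemistableModel.isMWPure_of k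
  · intro a ha
    exact nInj_tot' X A _ hA' a (by exact_mod_cast ha) _ (by rw [Int.abs_eq_natAbs])
  · intro a ha
    exact nSurj_tot' X A _ hA' a (by exact_mod_cast ha) _ (by rw [Int.abs_eq_natAbs])

end degeneration

end Pool.Agent.W5h58.MW
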