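import Pool.Agent.W5h58.MW.Strata

/-!
# Degenerations whose strata of even multiplicity are composed of members: the middle degree
-/

open Polynomial

universe w x

namespace Pool.Agent.W5h58.MW

open Pool.Agent.H914 Pool.Agent.W534 Pool.Agent.W521.Frob Pool.Agent.W458.MF Pool.Agent.Y143 Pool.Agent.X302.MW Module

variable {p m : ℕ} {I : Type} [Fintype I] {d : I → ℕ} {h : I → ℤ[X]} {R : ℤ[X]}
  {Ω : Type w} [Field Ω] [CharZero Ω] {Γ : Type} {n : ℕ}

lemma wt_frob {q : ℕ} (X : SpecialFibre.{w, x} Ω Γ n q) {a : ℕ} {χ : Γ → Ω} {y : X.H a}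
    (hy : y ∈ Wt (X.act a) χ) : y ∈ Module.End.maxGenEigenspace (X.act a X.frob) (χ X.frob) :=
  (Submodule.mem_iInf _).1 hy X.frob

lemma wtC_frob {q : ℕ} (X : SpecialFibre.{w, x} Ω Γ n q) {r : ℤ} {χ : Γ → Ω} {y : X.C}
    (hy : y ∈ Wt (X.actC r) χ) :
    y ∈ Module.End.maxGenEigenspace (X.actC r X.frob) (χ X.frob) :=
  (Submodule.mem_iInf _).1 hy X.frob

lemma forced_or {q : ℕ} {X : SpecialFibre.{w, x} Ω Γ n q} {e : I → ℕ}
    (hE : ForcedIsolated X e) {i j : I} (hij : i ≠ j) : e i = 0 ∨ e j = 0 := by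
  by_contra hcon
  push Not at hcon
  exact hij ((hE j hcon.2).1 i hcon.1)

/-- The polynomials of the different pieces are coprime and separable. -/
lemma prod_separable [IsAlgClosed Ω] (H : PSetup p m d h R) {nn e : I → ℕ} {δ : I → ℤˣ}
    (he : ∀ i, e i = 0 ∨ e i = 1 ∨ e i = 2)
    (hE : ∀ i j : I, i ≠ j → e i = 0 ∨ e j = 0) (S : Finset I) :
    ((∏ i ∈ S, (wp p m (d i) (h i) * xp p m (nn i) (e i) (δ i))).map
      (Int.castRingHom Ω)).Separable := by
  rw [Polynomial.map_prod]
  apply separable_prod'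
  · intro i _ j _ hij
    refine coprime_of_no_root (full_separable (Ω := Ω) H i (he i)).ne_zero ?_
    intro μ hμ hμ'
    rw [IsRoot.def, Polynomial.eval_map] at hμ hμ'
    apply no_common H (Ω := Ω) hij (hE i j hij) (α := μ) (β := μ) hμ hμ' 0
    rw [pow_zero, Nat.cast_one, one_mul]
  · intro i _
    exact full_separable H i (he i)

section one

variable [IsAlgClosed Ω] (X : SpecialFibre.{w, x} Ω Γ n (p ^ m))

lemma root_piece {nn e : I → ℕ} {δ : I → ℤˣ} {b : I → ℕ}
    (hX : IsComposedOf X (fun i => wp p m (d i) (h i) * xp p m (nn i) (e i) (δ i)) b) {c : ℕ}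
    (hc : Odd c) (hcn : c < n) {y : X.H c} {β : Ω} (hy : y ∈ primOf X c (n - c))
    (hβ : y ∈ Module.End.maxGenEigenspace (X.act c X.frob) β) (hy0 : y ≠ 0) :
    ∃ j, b j = c ∧ aeval β (wp p m (d j) (h j) * xp p m (nn j) (e j) (δ j)) = 0 := by
  have hchar := hX.middle c hc hcn
  have h1 := root_of_gen (X.act c X.frob) (primOf X c (n - c)) (primOf_stable X c _ X.frob)
    hy hβ hy0
  rw [hchar, IsRoot.def, Polynomial.map_prod, eval_prod, Finset.prod_eq_zero_iff] at h1
  obtain ⟨j, hj, hj0⟩ := h1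
  refine ⟨j, (Finset.mem_filter.1 hj).2, ?_⟩
  rw [Polynomial.eval_map] at hj0
  exact hj0

lemma simple_mid (H : PSetup p m d h R) {b nn e : I → ℕ} {δ : I → ℤˣ}
    (he : ∀ i, e i = 0 ∨ e i = 1 ∨ e i = 2) (hI : HasIntegralFrobenius X)
    (hX : IsComposedOf X (fun i => wp p m (d i) (h i) * xp p m (nn i) (e i) (δ i)) b) (hE : ForcedIsolated X e) (a w : ℕ) (ha : Odd (a + 1))
    (h2 : 2 ≤ w) (hn : a + 1 + w = n) (χ : Γ → Ω) (x0 : X.H (a + 1))
    (hx0 : x0 ∈ primOf X (a + 1) w) (hx0W : x0 ∈ Wt (X.act (a + 1)) χ) (hx00 : x0 ≠ 0) :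
    X.SimpleAt ((a : ℤ) + 1) w χ := by
  classical
  have hw : w = n - (a + 1) := by omega
  have hp0 : 0 < p := by have := H.hp; omega
  obtain ⟨i0, hi0, hα⟩ := root_piece X hX ha (by omega) (by rw [← hw]; exact hx0)
    (wt_frob X hx0W) hx00
  -- all elements are concentrated in the first component
  have key : ∀ y ∈ X.primPart ((a : ℤ) + 1) w χ, ∀ c, c ≠ a + 1 → y c = 0 := by
    rintro y ⟨⟨hyE, hyL⟩, hyW⟩ c hc
    by_contra hne
    have hcol : InColumn ((a : ℤ) + 1) c := by
      by_contra hcon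
      exact hne ((hyE c).2 hcon)
    have hac : a + 1 ≤ c := by
      have := hcol.1
      rw [abs_of_nonneg (by positivity)] at this
      exact_mod_cast this
    obtain ⟨t, ht⟩ : ∃ t : ℕ, c = a + 1 + 2 * t := by
      obtain ⟨t, ht⟩ := hcol.2
      exact ⟨t.toNat, by omega⟩
    have hcn : c ≤ n := by
      by_contra hcon
      exact hne (X.eq_zero_of_lt (by omega) _)
    have hygr : y c ∈ X.gr c ((n - c : ℕ) : ℤ) := by
      have := (hyE c).1
      rwa [show (w : ℤ) + ((a : ℤ) + 1) - c = ((n - c : ℕ) : ℤ) by omega] at this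
    have hyL' : (X.lef c ^ (n - c - (n - c) + 1)) (y c) = 0 := by
      have h1 : (X.lefC ^ ((n : ℤ) + 1 - ((a : ℤ) + 1) - w).toNat) y = 0 := hyL
      rw [show ((n : ℤ) + 1 - ((a : ℤ) + 1) - w).toNat = n - c - (n - c) + 1 by omega] at h1
      have h2 := congrFun h1 c
      rwa [X.lefC_pow_apply] at h2
    have hq0 : (((p ^ m : ℕ) : Ω)) ^ t ≠ 0 := by
      apply pow_ne_zero
      exact_mod_cast (pow_pos hp0 m).ne'
    set β : Ω := χ X.frob / ((p ^ m : ℕ) : Ω) ^ t with hβ
    have hαβ : χ X.frob = ((p ^ m : ℕ) : Ω) ^ t * β := by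
      rw [hβ, mul_div_cancel₀ _ hq0]
    have hyβ : y c ∈ Module.End.maxGenEigenspace (X.act c X.frob) β := by
      apply comp_gen X ((a : ℤ) + 1) c t _ (wtC_frob X hyW) hαβ
      rw [ht]; push_cast; ring
    have hαβ' : χ X.frob = ((p ^ (m * t) : ℕ) : Ω) * β := by
      rw [hαβ, pow_mul]; push_cast; rfl
    have hcodd : Odd c := by
      rw [ht]
      exact ha.add_even (even_two_mul t)
    rcases Nat.lt_or_ge c n with hlt | hge
    · obtain ⟨j, hj, hjβ⟩ := root_piece X hX hcodd hlt ⟨hygr, hyL'⟩ hyβ hne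
      have hij : i0 ≠ j := by
        rintro rfl
        exact hc (by rw [← hj, hi0])
      exact no_common H hij (forced_or hE hij) hα hjβ (m * t) hαβ'
    · have hceq : c = n := by omega
      subst hceq
      have hy0 : y c ∈ X.gr c 0 := by
        rwa [show ((c - c : ℕ) : ℤ) = 0 by simp] at hygr
      obtain ⟨r, hr, hr1⟩ := root_unity X hI c hy0 hne hyβ
      rw [map_mul, mul_eq_zero] at hα
      rcases hα with hα | hα
      · apply wp_rel_one H i0 hα hr 0 (c := p ^ (m * t * r)) (pow_pos hp0 _)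
        rw [hαβ', mul_pow, hr1, pow_zero, Nat.cast_one, mul_one, mul_one, pow_mul p (m * t)]
        push_cast
        rfl
      · have he0 : e i0 ≠ 0 := by
          intro h0
          rw [h0] at hα
          exact xp_zero hα
        exact hne ((hE i0 he0).2 _)
  -- the first component
  left
  have hchar := hX.middle (a + 1) ha (by omega)
  rw [← hw] at hchar
  have hfin : finrank Ω (primOf X (a + 1) w ⊓
      Module.End.maxGenEigenspace (X.act (a + 1) X.frob) (χ X.frob) :
        Submodule Ω (X.H (a + 1))) ≤ 1 := by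
    rw [finrank_gen _ _ (primOf_stable X (a + 1) w X.frob), hchar]
    apply rootMultiplicity_le_one_of_separable
    exact prod_separable H he (fun i j hij => forced_or hE hij) _
  have hmem : ∀ y ∈ X.primPart ((a : ℤ) + 1) w χ, y (a + 1) ∈ (primOf X (a + 1) w ⊓
      Module.End.maxGenEigenspace (X.act (a + 1) X.frob) (χ X.frob) :
        Submodule Ω (X.H (a + 1))) := by
    rintro y ⟨⟨hyE, hyL⟩, hyW⟩
    refine ⟨⟨?_, ?_⟩, ?_⟩
    · have := (hyE (a + 1)).1
      rwa [show (w : ℤ) + ((a : ℤ) + 1) - ((a + 1 : ℕ) : ℤ) = w by push_cast; ring] at this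
    · rw [SetLike.mem_coe, LinearMap.mem_ker]
      have h1 : (X.lefC ^ ((n : ℤ) + 1 - ((a : ℤ) + 1) - w).toNat) y = 0 := hyL
      rw [show ((n : ℤ) + 1 - ((a : ℤ) + 1) - w).toNat = n - (a + 1) - w + 1 by omega] at h1
      have h2 := congrFun h1 (a + 1)
      rwa [X.lefC_pow_apply] at h2
    · apply comp_gen X ((a : ℤ) + 1) (a + 1) 0 _ (wtC_frob X hyW)
      · rw [pow_zero, one_mul]
      · push_cast; ring
  let f : X.primPart ((a : ℤ) + 1) w χ →ₗ[Ω] (primOf X (a + 1) w ⊓
      Module.End.maxGenEigenspace (X.act (a + 1) X.frob) (χ X.frob) :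
        Submodule Ω (X.H (a + 1))) :=
    LinearMap.codRestrict _ ((LinearMap.proj (a + 1) : X.C →ₗ[Ω] X.H (a + 1)).domRestrict _)
      fun y => hmem y y.2
  have hf : Function.Injective f := by
    rw [← LinearMap.ker_eq_bot, LinearMap.ker_eq_bot']
    intro y hy
    apply Subtype.ext
    funext c
    by_cases hc : c = a + 1
    · subst hc
      exact congrArg Subtype.val hy
    · exact key y y.2 c hc
  exact (LinearMap.finrank_le_finrank_of_injective hf).trans hfin

end one

/-- **The monodromy-weight conjecture for degenerations whose strata of even multiplicity are composed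
of pieces with balanced relations.** -/
theorem mw_of_setup [IsAlgClosed Ω] (H : PSetup p m d h R) {b nn e : I → ℕ} {δ : I → ℤˣ}
    (he : ∀ i, e i = 0 ∨ e i = 1 ∨ e i = 2) (X : Degeneration.{w, x} Ω Γ n (p ^ m))
    (A : DivisorClasses X.toSpecialFibre) (hI : HasIntegralFrobenius X.toSpecialFibre)
    (hX : IsComposedOf X.toSpecialFibre
      (fun i => wp p m (d i) (h i) * xp p m (nn i) (e i) (δ i)) b) (hE : ForcedIsolated X.toSpecialFibre e) (j : ℕ) :
    IsMWPure (p ^ m) j (X.actV j X.frob) (X.N j) := by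
  apply mw X A j
  intro a w χ h2 hk hk'
  rcases Nat.even_or_odd a with ha | ha
  · have ha' : Odd (a + 1) := ha.add_one
    rcases Nat.lt_or_ge (a + 1 + w) n with hlt | hge
    · left
      apply noPrim_of_target X a w (by omega)
      intro y hy _
      rw [hX.low (a + 1) w ha' h2 hlt, Submodule.mem_bot] at hy
      exact hy
    · by_cases hz : ∀ x ∈ primOf X.toSpecialFibre (a + 1) w, x ∈ Wt (X.act (a + 1)) χ → x = 0
      · left
        exact noPrim_of_target X a w (by omega) χ hz
      · push Not at hz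
        obtain ⟨x0, hx0, hx0W, hx00⟩ := hz
        right; right; left
        exact simple_mid X.toSpecialFibre H he hI hX hE a w ha' h2 (by omega) χ x0 hx0 hx0W
          hx00
  · left
    apply noPrim_of_source
    intro y hy _
    rw [hX.low a w ha h2 (by omega), Submodule.mem_bot] at hy
    exact hy

end Pool.Agent.W5h58.MW
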