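import Pool.Agent.W458.MF.Geo7
import Pool.Agent.W458.MF.Gen6

/-!
# Relations between roots, and generalized eigenspaces
-/

namespace Pool.Agent.W5h58.MW

open Polynomial Pool.Agent.W458.MF Pool.Agent.W534 Pool.Agent.W521.Frob

section C

variable {I : Type} {Q : I → ℕ} {h : I → ℤ[X]} {R : ℤ[X]}

lemma rel_one (hQ : ∀ i, 0 < Q i) (hm : ∀ i, (h i).Monic) (hbal : Balanced Q h R)
    (hsep : ∀ i, ((weil (Q i) (h i)).map (Int.castRingHom ℚ)).Separable) (i : I) {a : ℕ}
    (ha : 0 < a) {x ν : ℂ} (hx : aeval x (weil (Q i) (h i)) = 0)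
    (hν : ν ∈ Submonoid.closure {z : ℂ | aeval z R = 0}) {c : ℕ} (hc : 0 < c) :
    x ^ a * ν ≠ (c : ℂ) := by
  classical
  intro hxc
  have h1 := hbal [(i, x)] (by
    intro z hz
    simp only [List.mem_cons, List.not_mem_nil, or_false] at hz
    rw [hz]
    exact hx) a ha ν hν c hc (by
      simp only [List.map_cons, List.map_nil, List.prod_cons, List.prod_nil, mul_one]
      exact hxc) i x
  have h2 : x ≠ (Q i : ℂ) / x := ne_div_of_sep (hQ i) (hm i) (hsep i) hx
  have h5 : ([(i, x)] : List (I × ℂ)).count (i, (Q i : ℂ) / x) = 0 := by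
    rw [List.count_eq_zero]
    simp only [List.mem_cons, List.not_mem_nil, or_false, Prod.mk.injEq, true_and]
    exact fun h => h2 h.symm
  have h6 : 0 < ([(i, x)] : List (I × ℂ)).count (i, x) := by
    rw [List.count_pos_iff]
    exact List.mem_cons_self
  have h7 : ([(i, x)] : List (I × ℂ)).count (i, x) =
      ([(i, x)] : List (I × ℂ)).count (i, (Q i : ℂ) / x) := by
    convert h1
  omega

lemma rel_two (hQ : ∀ i, 0 < Q i) (hm : ∀ i, (h i).Monic) (hbal : Balanced Q h R)
    (hsep : ∀ i, ((weil (Q i) (h i)).map (Int.castRingHom ℚ)).Separable) {i j : I} (hij : i ≠ j)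
    {x y ν : ℂ} (hx : aeval x (weil (Q i) (h i)) = 0) (hy : aeval y (weil (Q j) (h j)) = 0)
    (hν : ν ∈ Submonoid.closure {z : ℂ | aeval z R = 0}) {c : ℕ} (hc : 0 < c) :
    x * ν ≠ y * (c : ℂ) := by
  classical
  intro hxc
  have hy0 := root_ne_zero (hQ j).ne' (hm j) hy
  have h1 := hbal [(i, x), (j, (Q j : ℂ) / y)] (by
    intro z hz
    simp only [List.mem_cons, List.not_mem_nil, or_false] at hz
    rcases hz with rfl | rfl
    · exact hx
    · exact root_conj (hQ j).ne' (hm j) hy) 1 one_pos ν hν (Q j * c)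
    (Nat.mul_pos (hQ j) hc) (by
      simp only [List.map_cons, List.map_nil, List.prod_cons, List.prod_nil, mul_one, pow_one]
      rw [show x * ((Q j : ℂ) / y) * ν = (Q j : ℂ) / y * (x * ν) by ring, hxc,
        ← mul_assoc, div_mul_cancel₀ _ hy0]
      push_cast
      rfl) i x
  have h2 : x ≠ (Q i : ℂ) / x := ne_div_of_sep (hQ i) (hm i) (hsep i) hx
  have h5 : ([(i, x), (j, (Q j : ℂ) / y)] : List (I × ℂ)).count (i, (Q i : ℂ) / x) = 0 := by
    rw [List.count_eq_zero]
    simp only [List.mem_cons, List.not_mem_nil, or_false, Prod.mk.injEq, true_and, not_or]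
    exact ⟨fun h => h2 h.symm, fun h => hij h.1⟩
  have h6 : 0 < ([(i, x), (j, (Q j : ℂ) / y)] : List (I × ℂ)).count (i, x) := by
    rw [List.count_pos_iff]
    exact List.mem_cons_self
  have h7 : ([(i, x), (j, (Q j : ℂ) / y)] : List (I × ℂ)).count (i, x) =
      ([(i, x), (j, (Q j : ℂ) / y)] : List (I × ℂ)).count (i, (Q i : ℂ) / x) := by
    convert h1
  omega

end C

/-- Roots of two integral polynomials in a field of characteristic zero, with their multiplicative
relations, can be transferred to the complex numbers. -/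
lemma exists_transfer {Ω : Type*} [Field Ω] [CharZero Ω] {P Q : ℤ[X]} (hP : P.Monic)
    (hQ : Q.Monic) {α β : Ω} (hα : aeval α P = 0) (hβ : aeval β Q = 0) :
    ∃ x y : ℂ, aeval x P = 0 ∧ aeval y Q = 0 ∧
      ∀ a b c d : ℕ, α ^ a * (c : Ω) = β ^ b * (d : Ω) → x ^ a * (c : ℂ) = y ^ b * (d : ℂ) := by
  have hαi : IsIntegral ℤ α := ⟨P, hP, hα⟩
  have hβi : IsIntegral ℤ β := ⟨Q, hQ, hβ⟩
  have hα' : α ∈ algebraicClosure ℚ Ω := mem_algebraicClosure_iff.2 hαi.tower_top.isAlgebraic
  have hβ' : β ∈ algebraicClosure ℚ Ω := mem_algebraicClosure_iff.2 hβi.tower_top.isAlgebraic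
  let τ : algebraicClosure ℚ Ω →ₐ[ℚ] ℂ := IsAlgClosed.lift
  have key : ∀ (z : Ω) (hz : z ∈ algebraicClosure ℚ Ω) (f : ℤ[X]), aeval z f = 0 →
      aeval (τ ⟨z, hz⟩) f = 0 := by
    intro z hz f hf
    have h1 : aeval (⟨z, hz⟩ : algebraicClosure ℚ Ω) f = 0 := by
      apply Subtype.ext
      have h2 := aeval_algHom_apply ((algebraicClosure ℚ Ω).val.restrictScalars ℤ) ⟨z, hz⟩ f
      have h3 : ((algebraicClosure ℚ Ω).val.restrictScalars ℤ) ⟨z, hz⟩ = z := rfl
      rw [h3, hf] at h2
      exact h2.symm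
    have h4 := aeval_algHom_apply (τ.restrictScalars ℤ) ⟨z, hz⟩ f
    rw [h1, map_zero] at h4
    exact h4
  refine ⟨τ ⟨α, hα'⟩, τ ⟨β, hβ'⟩, key α hα' P hα, key β hβ' Q hβ, ?_⟩
  intro a b c d hrel
  have h1 : (⟨α, hα'⟩ : algebraicClosure ℚ Ω) ^ a * (c : algebraicClosure ℚ Ω) =
      (⟨β, hβ'⟩ : algebraicClosure ℚ Ω) ^ b * (d : algebraicClosure ℚ Ω) := by
    apply Subtype.ext
    push_cast
    exact hrel
  have h2 := congrArg τ h1
  rw [map_mul, map_mul, map_pow, map_pow, map_natCast, map_natCast] at h2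
  exact h2

section Gen

variable {K V : Type*} [Field K] [AddCommGroup V] [Module K V] [Module.Finite K V]

/-- The dimension of a generalized eigenspace in an invariant subspace. -/
lemma finrank_gen (f : V →ₗ[K] V) (S : Submodule K V) (hS : ∀ x ∈ S, f x ∈ S) (β : K) :
    Module.finrank K (S ⊓ Module.End.maxGenEigenspace f β : Submodule K V) =
      (charpolyOn f S).rootMultiplicity β := by
  classical
  have h1 : charpolyOn f S = (f.restrict hS).charpoly := by
    unfold charpolyOn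
    exact dif_pos hS
  rw [h1, ← LinearMap.finrank_maxGenEigenspace_eq]
  have h2 : S ⊓ Module.End.maxGenEigenspace f β =
      (Module.End.maxGenEigenspace (LinearMap.restrict f hS) β).map S.subtype :=
    Submodule.inf_genEigenspace f S hS
  rw [h2, Submodule.finrank_map_subtype_eq]

/-- A nonzero generalized eigenvector in an invariant subspace gives a root. -/
lemma root_of_gen (f : V →ₗ[K] V) (S : Submodule K V) (hS : ∀ x ∈ S, f x ∈ S) {β : K} {x : V}
    (hx : x ∈ S) (hx' : x ∈ Module.End.maxGenEigenspace f β) (h0 : x ≠ 0) :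
    (charpolyOn f S).IsRoot β := by
  by_contra hcon
  have h1 := rootMultiplicity_eq_zero hcon
  rw [← finrank_gen f S hS β, Submodule.finrank_eq_zero] at h1
  have h2 : x ∈ (S ⊓ Module.End.maxGenEigenspace f β : Submodule K V) := ⟨hx, hx'⟩
  rw [h1, Submodule.mem_bot] at h2
  exact h0 h2

end Gen

end Pool.Agent.W5h58.MW
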