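import Pool.Agent.W5h58.MW.Rel
import Pool.Agent.W5h58.MW.FamSetup

/-!
# The roots of the Weil polynomials of the members, in any field of characteristic zero
-/

open Polynomial

universe w

namespace Pool.Agent.W5h58.MW

open Pool.Agent.H914 Pool.Agent.W534 Pool.Agent.W521.Frob Pool.Agent.W458.MF

variable {p m : ℕ} {I : Type} {d : I → ℕ} {h : I → ℤ[X]} {R : ℤ[X]}
  {Ω : Type w} [Field Ω] [CharZero Ω]

/-- The Weil polynomial of a member. -/
noncomputable def wp (p m d : ℕ) (h : ℤ[X]) : ℤ[X] := weil (p ^ (d * m)) h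

/-- The extra factor of a member. -/
noncomputable def xp (p m n e : ℕ) (δ : ℤˣ) : ℤ[X] := Fam.extraPoly e (δ * (p : ℤ) ^ (n * m))

lemma pow_mem_closure (H : PSetup p m d h R) (s : ℕ) :
    ((p ^ s : ℕ) : ℂ) ∈ Submonoid.closure {z : ℂ | aeval z R = 0} := by
  rw [Nat.cast_pow]
  exact Submonoid.pow_mem _ (Submonoid.subset_closure
    (show (p : ℂ) ∈ {z : ℂ | aeval z R = 0} from H.hRp)) s

lemma Q_pos (H : PSetup p m d h R) (i : I) : 0 < p ^ (d i * m) :=
  pow_pos (by have := H.hp; omega) _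

lemma wp_monic (H : PSetup p m d h R) (i : I) : (wp p m (d i) (h i)).Monic :=
  weil_monic _ (H.monic i)

/-- There is no relation `α ^ a * p ^ s = c`. -/
lemma wp_rel_one (H : PSetup p m d h R) (i : I) {α : Ω} (hα : aeval α (wp p m (d i) (h i)) = 0) {a : ℕ}
    (ha : 0 < a) (s : ℕ) {c : ℕ} (hc : 0 < c) : α ^ a * ((p ^ s : ℕ) : Ω) ≠ (c : Ω) := by
  intro h
  obtain ⟨x, y, hx, hy, hrel⟩ := exists_transfer (wp_monic H i) (wp_monic H i) hα hα
  have h1 := hrel a 0 (p ^ s) c (by rw [h, pow_zero, one_mul])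
  rw [pow_zero, one_mul] at h1
  exact rel_one (Q_pos H) H.monic H.bal H.sep i ha hx (pow_mem_closure H s) hc h1

/-- There is no relation `α = p ^ s * β` between roots for different members. -/
lemma wp_rel_two (H : PSetup p m d h R) {i j : I} (hij : i ≠ j) {α β : Ω}
    (hα : aeval α (wp p m (d i) (h i)) = 0) (hβ : aeval β (wp p m (d j) (h j)) = 0) (s : ℕ) :
    α ≠ ((p ^ s : ℕ) : Ω) * β := by
  intro h
  obtain ⟨x, y, hx, hy, hrel⟩ := exists_transfer (wp_monic H i) (wp_monic H j) hα hβ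
  have h1 := hrel 1 1 1 (p ^ s) (by rw [h, pow_one, pow_one, Nat.cast_one, mul_one, mul_comm])
  rw [pow_one, pow_one] at h1
  exact rel_two (Q_pos H) H.monic H.bal H.sep hij hx hy
    (by rw [Nat.cast_one]; exact Submonoid.one_mem _) (pow_pos (by have := H.hp; omega) s) h1

omit [CharZero Ω] in
/-- The square of a root of the extra factor. -/
lemma xp_sq {n e : ℕ} {δ : ℤˣ} {α : Ω} (hα : aeval α (xp p m n e δ) = 0) :
    α ^ 2 = ((p ^ (2 * (n * m)) : ℕ) : Ω) := by
  have h1 : ((Fam.extraPoly e (δ * (p : ℤ) ^ (n * m))).map (Int.castRingHom Ω)).IsRoot α := by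
    rw [IsRoot.def, Polynomial.eval_map]
    exact hα
  have h2 : α ^ 2 = (((p : ℤ) ^ (n * m) : ℤ) : Ω) ^ 2 := by
    rcases extra_root e _ h1 with h | h <;> rw [h] <;>
      rcases unit_sq δ ((p : ℤ) ^ (n * m)) with h' | h' <;> rw [h'] <;> push_cast <;> ring
  rw [h2]
  push_cast
  rw [← pow_mul]
  congr 1
  ring

omit [CharZero Ω] in
lemma xp_zero {n : ℕ} {δ : ℤˣ} {α : Ω} (hα : aeval α (xp p m n 0 δ) = 0) : False := by
  rw [xp, extra_zero, map_one] at hα
  exact one_ne_zero hα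

/-- There is no relation `α = p ^ s * β` between roots of the full polynomials of different members,
one of which has no extra factor. -/
lemma no_common (H : PSetup p m d h R) {n e : I → ℕ} {δ : I → ℤˣ} {i j : I} (hij : i ≠ j)
    (he : e i = 0 ∨ e j = 0) {α β : Ω}
    (hα : aeval α (wp p m (d i) (h i) * xp p m (n i) (e i) (δ i)) = 0)
    (hβ : aeval β (wp p m (d j) (h j) * xp p m (n j) (e j) (δ j)) = 0) (s : ℕ) :
    α ≠ ((p ^ s : ℕ) : Ω) * β := by
  intro h
  have hp0 : 0 < p := by have := H.hp; omega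
  rw [map_mul, mul_eq_zero] at hα hβ
  rcases hα with hα | hα <;> rcases hβ with hβ | hβ
  · exact wp_rel_two H hij hα hβ s h
  · have h1 := xp_sq hβ
    apply wp_rel_one H i hα two_pos 0 (c := p ^ (2 * s + 2 * (n j * m))) (pow_pos hp0 _)
    rw [h, mul_pow, h1, pow_zero, Nat.cast_one, mul_one]
    push_cast
    ring
  · have h1 := xp_sq hα
    apply wp_rel_one H j hβ two_pos (2 * s) (c := p ^ (2 * (n i * m))) (pow_pos hp0 _)
    rw [← h1, h, mul_pow]
    push_cast
    ring
  · rcases he with he | he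
    · rw [he] at hα
      exact xp_zero hα
    · rw [he] at hβ
      exact xp_zero hβ

/-- The full polynomial of a member is separable. -/
lemma full_separable [IsAlgClosed Ω] (H : PSetup p m d h R) {n e : ℕ} {δ : ℤˣ} (i : I)
    (he : e = 0 ∨ e = 1 ∨ e = 2) :
    ((wp p m (d i) (h i) * xp p m n e δ).map (Int.castRingHom Ω)).Separable := by
  have hp0 : 0 < p := by have := H.hp; omega
  rw [Polynomial.map_mul]
  have hr : (δ * (p : ℤ) ^ (n * m) : ℤ) ≠ 0 := by
    have h1 : (p : ℤ) ^ (n * m) ≠ 0 := pow_ne_zero _ (by exact_mod_cast hp0.ne')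
    rcases unit_sq δ ((p : ℤ) ^ (n * m)) with h | h
    · rw [h]; exact h1
    · rw [h]; exact neg_ne_zero.2 h1
  refine Separable.mul (map_separable (H.sep i)) (extra_separable hr he) ?_
  refine coprime_of_no_root ((wp_monic H i).map _).ne_zero ?_
  intro μ hμ hμ'
  rw [IsRoot.def, Polynomial.eval_map] at hμ hμ'
  apply wp_rel_one H i (α := μ) hμ two_pos 0 (c := p ^ (2 * (n * m))) (pow_pos hp0 _)
  rw [xp_sq (δ := δ) (e := e) hμ', pow_zero, Nat.cast_one, mul_one]

end Pool.Agent.W5h58.MW
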