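import Pool.Agent.W5h58.MW.Defs
import Pool.Agent.X302.MW.SDefs
import Pool.Agent.Y143.Access
import Pool.Agent.W534.PoleDefs

/-!
# Degenerations whose strata of even multiplicity have given Frobenius polynomials: definitions
-/

open Polynomial

universe w x

namespace Pool.Agent.W5h58.MW

open Pool.Agent.W534 Pool.Agent.Y143 Pool.Agent.X302.MW

/-- The strata `Y^(2), Y^(4), Y^(6), ...` of even multiplicity of the special fibre are composed of
pieces with the Frobenius polynomials `Q i`, where the piece `i` occurs in `Y^(b i + 1)`: the primitive
cohomology of `Y^(a+1)`, for odd `a`, is zero in the degrees `w` with `2 ≤ w < n - a = dim Y^(a+1)`, and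
in the middle degree `n - a > 0` the characteristic polynomial of the Frobenius is the product of the
polynomials `Q i` with `b i = a`. Nothing is said on the components and on the strata of odd
multiplicity, and nothing on the strata of even multiplicity in the degrees `0` and `1`. -/
structure IsComposedOf {Ω : Type w} [Field Ω] [CharZero Ω] {Γ : Type} {n q : ℕ}
    (X : SpecialFibre.{w, x} Ω Γ n q) {I : Type} [Fintype I] (Q : I → ℤ[X]) (b : I → ℕ) :
    Prop where
  low : ∀ a w : ℕ, Odd a → 2 ≤ w → a + w < n → primOf X a w = ⊥
  middle : ∀ a : ℕ, Odd a → a < n → charpolyOn (X.act a X.frob) (primOf X a (n - a)) =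
    (∏ i with b i = a, Q i).map (Int.castRingHom Ω)

/-- Either no piece has forced Frobenius eigenvalues (`e i = 0` for all `i`), or only one piece has
forced eigenvalues and there are no points of multiplicity `n + 1` on the special fibre. -/
def ForcedIsolated {Ω : Type w} [Field Ω] [CharZero Ω] {Γ : Type} {n q : ℕ}
    (X : SpecialFibre.{w, x} Ω Γ n q) {I : Type} (e : I → ℕ) : Prop :=
  ∀ i, e i ≠ 0 → (∀ j, e j ≠ 0 → j = i) ∧ ∀ y : X.H n, y = 0

/-- The monodromy-weight conjecture, in all degrees, for **all** projective strictly semistable schemes
over henselian discrete valuation rings with residue field with `q` elements, of any relative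
dimension `n`, whose strata of even multiplicity are composed of pieces with the Frobenius
polynomials `Q i`. -/
def MonodromyWeightFor {I : Type} [Fintype I] (Q : I → ℤ[X]) (b e : I → ℕ) (q : ℕ) : Prop :=
  ∀ (Ω : Type w) [Field Ω] [CharZero Ω] [IsAlgClosed Ω] (Γ : Type) (n : ℕ)
    (X : Degeneration.{w, x} Ω Γ n q), DivisorClasses X.toSpecialFibre →
      HasIntegralFrobenius X.toSpecialFibre → IsComposedOf X.toSpecialFibre Q b →
        ForcedIsolated X.toSpecialFibre e →
          ∀ j : ℕ, IsMWPure q j (X.actV j X.frob) (X.N j)

end Pool.Agent.W5h58.MW
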