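import Pool.Agent.W5h58.MW.SDefs
import Pool.Agent.W5h58.MW.Absent
import Pool.Agent.W5h58.MW.Roots
import Pool.Agent.X302.MW.Num

/-!
# Degenerations whose strata of even multiplicity are composed of members: the proof
-/

open Polynomial

universe w x

namespace Pool.Agent.W5h58.MW

open Pool.Agent.H914 Pool.Agent.W534 Pool.Agent.W521.Frob Pool.Agent.W458.MF Pool.Agent.Y143 Pool.Agent.X302.MW Module

section fibre

variable {Ω : Type w} [Field Ω] [CharZero Ω] {Γ : Type} {n q : ℕ}
  (X : SpecialFibre.{w, x} Ω Γ n q)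

lemma lef_pow_act (a s : ℕ) (g : Γ) (y : X.H a) :
    X.act a g ((X.lef a ^ s) y) = ((X.cyc g : Ωˣ) : Ω) ^ s • (X.lef a ^ s) (X.act a g y) := by
  induction s with
  | zero => simp
  | succ s ih =>
    rw [pow_succ', Module.End.mul_apply, X.lef_act, ih, map_smul, smul_smul, ← pow_succ',
      ← Module.End.mul_apply, ← pow_succ']

/-- The primitive cohomology is invariant. -/
lemma primOf_stable (a m : ℕ) (g : Γ) : ∀ y ∈ primOf X a m, X.act a g y ∈ primOf X a m := by
  rintro y ⟨h1, h2⟩
  refine ⟨X.act_gr a _ g y h1, ?_⟩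
  rw [SetLike.mem_coe, LinearMap.mem_ker] at h2 ⊢
  have h3 := lef_pow_act X a (n - a - m + 1) g y
  rw [h2, map_zero] at h3
  exact (smul_eq_zero.1 h3.symm).resolve_left (pow_ne_zero _ (Units.ne_zero _))

/-- The components of an element of a generalized eigenspace in a column. -/
lemma comp_gen (r : ℤ) (b t : ℕ) (hb : (b : ℤ) - r = 2 * t) {y : X.C} {α β : Ω}
    (hy : y ∈ Module.End.maxGenEigenspace (X.actC r X.frob) α) (hαβ : α = (q : Ω) ^ t * β) :
    y b ∈ (X.act b X.frob).maxGenEigenspace β := by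
  rw [Module.End.mem_maxGenEigenspace] at hy ⊢
  obtain ⟨k, hk⟩ := hy
  refine ⟨k, ?_⟩
  have hq : (q : Ω) ≠ 0 := by
    have := X.cyc_frob
    rw [← this]
    exact Units.ne_zero _
  have h1 : ∀ (k : ℕ) (y : X.C), (((X.actC r X.frob - α • (1 : Module.End Ω X.C)) ^ k) y) b =
      ((q : Ω) ^ t) ^ k • ((X.act b X.frob - β • (1 : Module.End Ω (X.H b))) ^ k) (y b) := by
    intro k
    induction k with
    | zero => intro y; simp
    | succ k ih =>
      intro y
      have h3 : (X.actC r X.frob - α • (1 : Module.End Ω X.C)) y b =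
          (q : Ω) ^ t • ((X.act b X.frob - β • (1 : Module.End Ω (X.H b))) (y b)) := by
        show X.actC r X.frob y b - α • y b = (q : Ω) ^ t • (X.act b X.frob (y b) - β • y b)
        rw [X.actC_apply, hb, Int.mul_ediv_cancel_left _ (by norm_num), zpow_natCast,
          Units.val_pow_eq_pow_val, X.cyc_frob, hαβ, smul_sub, smul_smul]
      rw [pow_succ, Module.End.mul_apply, ih, h3, map_smul, smul_smul, ← pow_succ,
        pow_succ (X.act b X.frob - β • (1 : Module.End Ω (X.H b))), Module.End.mul_apply]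
  have h2 := congrFun hk b
  rw [h1, Pi.zero_apply] at h2
  exact (smul_eq_zero.1 h2).resolve_left (pow_ne_zero _ (pow_ne_zero _ hq))

/-- The Frobenius eigenvalues on `H^0` are roots of unity. -/
lemma root_unity (hI : HasIntegralFrobenius X) (a : ℕ) {y : X.H a} {β : Ω} (hy : y ∈ X.gr a 0)
    (hy0 : y ≠ 0) (hβ : y ∈ (X.act a X.frob).maxGenEigenspace β) : ∃ k : ℕ, 0 < k ∧ β ^ k = 1 := by
  have hS : ∀ x ∈ X.gr a 0, X.act a X.frob x ∈ X.gr a 0 := fun x hx => X.act_gr a 0 _ x hx
  have h1 := root_of_gen (X.act a X.frob) (X.gr a 0) hS hy hβ hy0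
  have h2 : charpolyOn (X.act a X.frob) (X.gr a 0) =
      ((X.act a X.frob).restrict hS).charpoly := by
    classical
    unfold charpolyOn
    exact dif_pos hS
  rw [h2, ← Module.End.hasEigenvalue_iff_isRoot_charpoly] at h1
  obtain ⟨v, hv⟩ := h1.exists_hasEigenvector
  have hv1 : X.act a X.frob (v : X.H a) = β • (v : X.H a) := by
    have := hv.apply_eq_smul
    exact congrArg Subtype.val this
  have hv0 : (v : X.H a) ≠ 0 := fun h => hv.2 (Subtype.ext h)
  refine root_of_unity (hI a 0 β v v.2 hv0 hv1) ?_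
  intro z hz
  have := (X.weil a 0 β v v.2 hv0 hv1).2 z hz
  rwa [Int.cast_zero, zero_div, Real.rpow_zero] at this

end fibre

end Pool.Agent.W5h58.MW
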