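import Pool.Agent.X302.MW.SDefs
import Pool.Agent.Y143.Access
import Pool.Agent.W534.PoleDefs

/-!
# Threefolds whose double surfaces have given Frobenius polynomials: definitions
-/

open Polynomial

universe w x

namespace Pool.Agent.W5h58.MW

open Pool.Agent.W534 Pool.Agent.Y143 Pool.Agent.X302.MW

/-- The double surfaces (the components of `Y^(2)`) of the special fibre of a strictly semistable
threefold are composed of pieces with the Frobenius polynomials `Q i`, up to Tate classes: the
characteristic polynomial of the Frobenius on `H^2(Y^(2))` is the product of the `Q i` and of a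
polynomial `T` all of whose roots are products of `q` and roots of unity. -/
def DoubleSurfaces {Ω : Type w} [Field Ω] [CharZero Ω] {Γ : Type} {q : ℕ}
    (X : SpecialFibre.{w, x} Ω Γ 3 q) {I : Type} [Fintype I] (Q : I → ℤ[X]) : Prop :=
  ∃ T : ℤ[X], (∀ α : Ω, aeval α T = 0 → IsTateNumber q α) ∧
    charpolyOn (X.act 1 X.frob) (X.gr 1 2) = (T * ∏ i, Q i).map (Int.castRingHom Ω)

/-- The monodromy-weight conjecture, in all degrees, for **all** strictly semistable threefolds over
henselian discrete valuation rings with residue field with `q` elements whose double surfaces are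
composed of pieces with the Frobenius polynomials `Q i` up to Tate classes, and whose components satisfy
the Tate conjecture for divisors. -/
def ThreefoldsWith {I : Type} [Fintype I] (Q : I → ℤ[X]) (q : ℕ) : Prop :=
  ∀ (Ω : Type w) [Field Ω] [CharZero Ω] [IsAlgClosed Ω] (Γ : Type)
    (X : Degeneration.{w, x} Ω Γ 3 q) (A : DivisorClasses X.toSpecialFibre),
      HasIntegralFrobenius X.toSpecialFibre → A.TateConj 0 →
        DoubleSurfaces X.toSpecialFibre Q →
          ∀ j : ℕ, IsMWPure q j (X.actV j X.frob) (X.N j)

end Pool.Agent.W5h58.MW
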