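import Pool.Agent.W5h58.MW.TDefs
import Pool.Agent.W5h58.MW.AlmostAll

/-!
# Threefolds whose double surfaces are composed of almost all members
-/

open Polynomial

universe w x

namespace Pool.Agent.W5h58.MW

open Pool.Agent.H914 Pool.Agent.W534 Pool.Agent.W521.Frob Pool.Agent.W458.MF Pool.Agent.Y143 Pool.Agent.X302.MW Module

/-- A Weil number of weight two whose square is an integer is a Tate number. -/
lemma tate_of_sq {Ω : Type*} [Field Ω] [CharZero Ω] {q : ℕ} {α : Ω} (h : IsWeilNumber q 2 α)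
    {N : ℕ} (hN : α ^ 2 = N) : IsTateNumber q α := by
  refine ⟨2, two_pos, ?_⟩
  have hint : IsIntegral ℚ α := h.1.isIntegral
  obtain ⟨z, hz⟩ := IsAlgClosed.exists_aeval_eq_zero ℂ (minpoly ℚ α) (minpoly.degree_pos hint).ne'
  have h1 := h.2 z hz
  have h2 : minpoly ℚ α ∣ (X ^ 2 - C (N : ℚ)) := by
    apply minpoly.dvd
    simp [hN]
  have h3 : z ^ 2 = N := by
    obtain ⟨g, hg⟩ := h2
    have h4 := congrArg (aeval z) hg
    rw [map_mul, hz, zero_mul] at h4
    simpa [sub_eq_zero] using h4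
  have h5 : (q : ℝ) ^ 2 = N := by
    have h6 : ‖z‖ = (q : ℝ) := by
      rw [h1]
      norm_num
    rw [← h6, ← norm_pow, h3]
    simp
  have h7 : q ^ 2 = N := by exact_mod_cast h5
  rw [hN, ← h7]
  push_cast
  rfl

variable {p m : ℕ} {I : Type} [Fintype I] {d : I → ℕ} {h : I → ℤ[X]} {R : ℤ[X]}
  {Ω : Type w} [Field Ω] [CharZero Ω] {Γ : Type}

lemma simple_three [IsAlgClosed Ω] (X : SpecialFibre.{w, x} Ω Γ 3 (p ^ m))
    (H : PSetup p m d h R) {nn e : I → ℕ} {δ : I → ℤˣ}
    (hI : HasIntegralFrobenius X)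
    (hX : DoubleSurfaces X (fun i => wp p m (d i) (h i) * xp p m (nn i) (e i) (δ i))) (χ : Γ → Ω) (hχ : ¬ IsTateNumber (p ^ m) (χ X.frob)) :
    X.SimpleAt (((0 : ℕ) : ℤ) + 1) ((2 : ℕ) : ℤ) χ := by
  classical
  have hp0 : 0 < p := by have := H.hp; omega
  have hq0 : (((p ^ m : ℕ) : Ω)) ≠ 0 := by exact_mod_cast (pow_pos hp0 m).ne'
  -- all elements are concentrated in the first component
  have key : ∀ y ∈ X.primPart (((0 : ℕ) : ℤ) + 1) ((2 : ℕ) : ℤ) χ, ∀ c, c ≠ 1 → y c = 0 := by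
    rintro y ⟨⟨hyE, -⟩, hyW⟩ c hc
    by_contra hne
    have hcol : InColumn (((0 : ℕ) : ℤ) + 1) c := by
      by_contra hcon
      exact hne ((hyE c).2 hcon)
    have hcn : c ≤ 3 := by
      by_contra hcon
      exact hne (X.eq_zero_of_lt (by omega) _)
    have h1 : (1 : ℕ) ≤ c := by
      have := hcol.1
      rw [show (((0 : ℕ) : ℤ) + 1) = 1 by simp, abs_one] at this
      exact_mod_cast this
    have h2 := hcol.2
    have hc3 : c = 3 := by omega
    subst hc3
    have hygr : y 3 ∈ X.gr 3 0 := by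
      have := (hyE 3).1
      rwa [show ((2 : ℕ) : ℤ) + (((0 : ℕ) : ℤ) + 1) - ((3 : ℕ) : ℤ) = 0 by norm_num] at this
    have hαβ : χ X.frob = ((p ^ m : ℕ) : Ω) ^ 1 * (χ X.frob / ((p ^ m : ℕ) : Ω)) := by
      rw [pow_one, mul_div_cancel₀ _ hq0]
    have hyβ := comp_gen X (((0 : ℕ) : ℤ) + 1) 3 1 (by norm_num) (wtC_frob X hyW) hαβ
    obtain ⟨r, hr, hr1⟩ := root_unity X hI 3 hygr hne hyβ
    apply hχ
    refine ⟨r, hr, ?_⟩
    rw [div_pow, div_eq_one_iff_eq (pow_ne_zero _ hq0)] at hr1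
    exact hr1
  -- the first component
  left
  obtain ⟨T, hT, hchar⟩ := hX
  have hstab : ∀ y ∈ X.gr 1 2, X.act 1 X.frob y ∈ X.gr 1 2 := fun y hy => X.act_gr 1 2 _ y hy
  have hfin : finrank Ω (X.gr 1 2 ⊓
      Module.End.maxGenEigenspace (X.act 1 X.frob) (χ X.frob) : Submodule Ω (X.H 1)) ≤ 1 := by
    rw [finrank_gen _ _ hstab]
    by_cases hroot : (charpolyOn (X.act 1 X.frob) (X.gr 1 2)).IsRoot (χ X.frob)
    swap
    · rw [rootMultiplicity_eq_zero hroot]
      exact zero_le_one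
    -- the eigenvalue is a Weil number
    have hweil : IsWeilNumber (p ^ m) 2 (χ X.frob) := by
      have h2 : charpolyOn (X.act 1 X.frob) (X.gr 1 2) =
          ((X.act 1 X.frob).restrict hstab).charpoly := by
        unfold charpolyOn
        exact dif_pos hstab
      rw [h2, ← Module.End.hasEigenvalue_iff_isRoot_charpoly] at hroot
      obtain ⟨v, hv⟩ := hroot.exists_hasEigenvector
      have hv1 : X.act 1 X.frob (v : X.H 1) = χ X.frob • (v : X.H 1) := by
        have := hv.apply_eq_smul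
        exact congrArg Subtype.val this
      have hv0 : (v : X.H 1) ≠ 0 := fun h => hv.2 (Subtype.ext h)
      exact X.weil 1 2 _ v v.2 hv0 hv1
    have hchar0 : (T * ∏ i, (wp p m (d i) (h i) * xp p m (nn i) (e i) (δ i))).map (Int.castRingHom Ω) ≠ 0 := by
      intro h0
      have h2 : charpolyOn (X.act 1 X.frob) (X.gr 1 2) =
          ((X.act 1 X.frob).restrict hstab).charpoly := by
        unfold charpolyOn
        exact dif_pos hstab
      rw [← hchar, h2] at h0
      exact (LinearMap.charpoly_monic _).ne_zero h0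
    have hprod : (T * ∏ i, (wp p m (d i) (h i) * xp p m (nn i) (e i) (δ i))).map (Int.castRingHom Ω) =
        T.map (Int.castRingHom Ω) * ((∏ i, wp p m (d i) (h i)).map (Int.castRingHom Ω) *
          (∏ i, xp p m (nn i) (e i) (δ i)).map (Int.castRingHom Ω)) := by
      rw [Polynomial.map_mul, Finset.prod_mul_distrib, Polynomial.map_mul]
    rw [hprod] at hchar0
    rw [hchar, hprod, rootMultiplicity_mul hchar0, rootMultiplicity_mul (right_ne_zero_of_mul hchar0)]
    have hT0 : (T.map (Int.castRingHom Ω)).rootMultiplicity (χ X.frob) = 0 := by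
      apply rootMultiplicity_eq_zero
      intro hr
      rw [IsRoot.def, Polynomial.eval_map] at hr
      exact hχ (hT _ hr)
    have hx0 : ((∏ i, xp p m (nn i) (e i) (δ i)).map (Int.castRingHom Ω)).rootMultiplicity
        (χ X.frob) = 0 := by
      apply rootMultiplicity_eq_zero
      intro hr
      rw [IsRoot.def, Polynomial.map_prod, eval_prod, Finset.prod_eq_zero_iff] at hr
      obtain ⟨i, -, hi⟩ := hr
      rw [Polynomial.eval_map] at hi
      exact hχ (tate_of_sq hweil (xp_sq hi))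
    have hw1 : ((∏ i, wp p m (d i) (h i)).map (Int.castRingHom Ω)).rootMultiplicity (χ X.frob) ≤ 1 := by
      apply rootMultiplicity_le_one_of_separable
      rw [Polynomial.map_prod]
      apply separable_prod'
      · intro i _ j _ hij
        refine coprime_of_no_root ((wp_monic H i).map _).ne_zero ?_
        intro μ hμ hμ'
        rw [IsRoot.def, Polynomial.eval_map] at hμ hμ'
        apply wp_rel_two H (Ω := Ω) hij (α := μ) (β := μ) hμ hμ' 0
        rw [pow_zero, Nat.cast_one, one_mul]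
      · intro i _
        exact map_separable (H.sep i)
    omega
  have hmem : ∀ y ∈ X.primPart (((0 : ℕ) : ℤ) + 1) ((2 : ℕ) : ℤ) χ, y 1 ∈ (X.gr 1 2 ⊓
      Module.End.maxGenEigenspace (X.act 1 X.frob) (χ X.frob) : Submodule Ω (X.H 1)) := by
    rintro y ⟨⟨hyE, -⟩, hyW⟩
    refine ⟨?_, ?_⟩
    · have := (hyE 1).1
      rwa [show ((2 : ℕ) : ℤ) + (((0 : ℕ) : ℤ) + 1) - ((1 : ℕ) : ℤ) = 2 by norm_num] at this
    · apply comp_gen X (((0 : ℕ) : ℤ) + 1) 1 0 (by norm_num) (wtC_frob X hyW)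
      rw [pow_zero, one_mul]
  let f : X.primPart (((0 : ℕ) : ℤ) + 1) ((2 : ℕ) : ℤ) χ →ₗ[Ω] (X.gr 1 2 ⊓
      Module.End.maxGenEigenspace (X.act 1 X.frob) (χ X.frob) : Submodule Ω (X.H 1)) :=
    LinearMap.codRestrict _ ((LinearMap.proj 1 : X.C →ₗ[Ω] X.H 1).domRestrict _)
      fun y => hmem y y.2
  have hf : Function.Injective f := by
    rw [← LinearMap.ker_eq_bot, LinearMap.ker_eq_bot']
    intro y hy
    apply Subtype.ext
    funext c
    by_cases hc : c = 1
    · subst hc
      exact congrArg Subtype.val hy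
    · exact key y y.2 c hc
  exact (LinearMap.finrank_le_finrank_of_injective hf).trans hfin

/-- **The monodromy-weight conjecture for threefolds whose double surfaces are composed of pieces with
balanced relations.** -/
theorem mw_three [IsAlgClosed Ω] (H : PSetup p m d h R) {nn e : I → ℕ} {δ : I → ℤˣ}
    (X : Degeneration.{w, x} Ω Γ 3 (p ^ m))
    (A : DivisorClasses X.toSpecialFibre) (hI : HasIntegralFrobenius X.toSpecialFibre)
    (hT : A.TateConj 0) (hX : DoubleSurfaces X.toSpecialFibre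
      (fun i => wp p m (d i) (h i) * xp p m (nn i) (e i) (δ i))) (j : ℕ) :
    IsMWPure (p ^ m) j (X.actV j X.frob) (X.N j) := by
  apply mw X A j
  intro a w χ h2 hk hk'
  obtain rfl : a = 0 := by omega
  obtain rfl : w = 2 := by omega
  by_cases hχ : IsTateNumber (p ^ m) (χ X.frob)
  · right; left
    exact ⟨rfl, fun y hy hyW => hT _ hχ y hy (wt_frob X.toSpecialFibre hyW)⟩
  · right; right; left
    exact simple_three X.toSpecialFibre H hI hX χ hχ

theorem final_three (p : ℕ) (hp : p.Prime) {I : Type} [Fintype I] (F : I → WeilFamily)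
    (hF : ∀ i, (F i).HasLargeMonodromy p) (ε : ℝ) (hε : 0 < ε) :
    ∃ m₀ : ℕ, ∀ m ≥ m₀, ({s : ∀ i, (F i).S m |
        ¬ ThreefoldsWith.{w, x} (fun i => (F i).frobPoly p m (s i)) (p ^ m)}.ncard : ℝ) ≤
      ε * ∏ i, (Nat.card ((F i).S m) : ℝ) := by
  classical
  choose g l₀ D π hF using hF
  obtain ⟨m₀, h⟩ := weil_setup W216.MF.sieve
    (W806.MF.dens W337.MF.orb W366.MF.winj W205.MF.cnt) st_odens st_edens W976.MF.SPL
    W216.MF.uni st_nt2 hp F g l₀ D π hF ε hε
  refine ⟨m₀, fun m hm => le_trans ?_ (h m hm)⟩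
  refine Nat.cast_le.2 (Set.ncard_le_ncard ?_ (Set.toFinite _))
  intro s hs H
  apply hs
  intro Ω _ _ _ Γ X A hI hT hX j
  exact mw_three H (nn := fun i => (F i).half) (e := fun i => (F i).extra)
    (δ := fun i => (F i).sign) X A hI hT hX j

end Pool.Agent.W5h58.MW
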